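import Pool.Agent.Work.MP_b17785_an.Gol.All

/-!
# Goluzin's inequality for two points: see `Gol/All.lean` (theorem `Pool.Agent.MultS.gol`)
-/
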