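import Pool.Agent.Work.MP_b17785_an.Stmts

/-!
# Coefficient multipliers of the class S: the classical coefficient bound (Littlewood) and the
sufficient condition
-/

set_option autoImplicit false

open Complex Metric Set Filter Topology MeasureTheory Finset

namespace Pool.Agent.MultS

/-- [K0] Bessel's inequality on a circle. -/
def Bess : Prop :=
  ∀ (g : ℝ → ℂ), Continuous g → ∀ s : Finset ℤ,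
    ∑ k ∈ s, ‖(1 / (2 * Real.pi) : ℝ) * ∫ θ in (-Real.pi)..Real.pi,
      g θ * exp (-((k : ℂ) * (θ : ℂ) * I))‖ ^ 2 ≤
    1 / (2 * Real.pi) * ∫ θ in (-Real.pi)..Real.pi, ‖g θ‖ ^ 2

/-- [K1] The square root transform. -/
def SqrtT : Prop :=
  ∀ f : ℂ → ℂ, Sc f → ∃ φ : ℂ → ℂ, Sc φ ∧ (∀ z ∈ ball (0 : ℂ) 1, φ z ^ 2 = f (z ^ 2)) ∧
    ∀ z ∈ ball (0 : ℂ) 1, φ (-z) = -φ z

/-- [K2] The area theorem for `1/φ = 1/z + b₀ + b₁ z + ...`, in the form `|b₁| ≤ 1`. -/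
def AreaOut : Prop :=
  ∀ (χ : ℂ → ℂ), DifferentiableOn ℂ χ (ball 0 1) →
    InjOn (fun z : ℂ => z⁻¹ + χ z) (ball 0 1 \ {0}) → ‖deriv χ 0‖ ≤ 1

/-- [K3] Bieberbach: `|a₂| ≤ 2`. -/
def Bieb : Prop := ∀ f : ℂ → ℂ, Sc f → ‖tc f 2‖ ≤ 2

/-- [K4] The Koebe transform. -/
def Dist : Prop :=
  ∀ f : ℂ → ℂ, Sc f → ∀ z ∈ ball (0 : ℂ) 1,
    ‖z * deriv (deriv f) z / deriv f z - ((2 * ‖z‖ ^ 2 / (1 - ‖z‖ ^ 2) : ℝ) : ℂ)‖ ≤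
      4 * ‖z‖ / (1 - ‖z‖ ^ 2)

/-- [K5] The growth theorem. -/
def Growth : Prop :=
  ∀ f : ℂ → ℂ, Sc f → ∀ z ∈ ball (0 : ℂ) 1, ‖f z‖ ≤ ‖z‖ / (1 - ‖z‖) ^ 2

/-- [K6] The area of the image of a disk. -/
def AreaIn : Prop :=
  ∀ (φ : ℂ → ℂ), DifferentiableOn ℂ φ (ball 0 1) → InjOn φ (ball 0 1) →
    ∀ r M : ℝ, 0 < r → r < 1 → (∀ z : ℂ, ‖z‖ < r → ‖φ z‖ ≤ M) → ∀ N : ℕ,
      ∑ n ∈ range N, (n : ℝ) * ‖tc φ n‖ ^ 2 * r ^ (2 * n) ≤ M ^ 2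

/-- [K7] The mean square of the square root transform. -/
def MeanSq : Prop :=
  ∀ f φ : ℂ → ℂ, Sc f → Sc φ → (∀ z ∈ ball (0 : ℂ) 1, φ z ^ 2 = f (z ^ 2)) →
    ∀ r : ℝ, 0 < r → r < 1 → ∀ N : ℕ,
      ∑ n ∈ range N, ‖tc φ n‖ ^ 2 * r ^ (2 * n) ≤ r ^ 2 / (1 - r ^ 2)

/-- [K8] Littlewood's coefficient bound. -/
def Litt : Prop := ∀ f : ℂ → ℂ, Sc f → ∀ n : ℕ, 1 ≤ n → ‖tc f n‖ ≤ 3 * n

/-- [K9] The sufficient condition. -/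
def Suff : Prop :=
  ∀ lam : ℕ → ℂ, lam 1 = 1 → Summable (fun n : ℕ => (n : ℝ) ^ 2 * ‖lam n‖) →
    ∑' n : ℕ, ((n : ℝ) + 2) ^ 2 * ‖lam (n + 2)‖ ≤ 1 / 3 → Lit Sc lam

end Pool.Agent.MultS
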