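import Pool.Agent.Work.MP_b17785_an.Stmts

/-!
# [C2] Julia's lemma
-/

set_option autoImplicit false

open Complex Metric Set Filter Topology

namespace Pool.Agent.MultS

namespace C2

lemma mem_real {r : ℝ} (h0 : 0 ≤ r) (h1 : r < 1) : (r : ℂ) ∈ ball (0 : ℂ) 1 := by
  rw [mem_ball_zero_iff, Complex.norm_real, Real.norm_of_nonneg h0]
  exact h1

/-- the basic inequality -/
lemma key (c1 : Har) {P : ℂ → ℂ} (hP : Car P) {z : ℂ} (hz : z ∈ ball (0 : ℂ) 1) {r : ℝ}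
    (h0 : 0 ≤ r) (h1 : r < 1) :
    ∃ n d : ℝ, 0 ≤ n ∧ 0 < d ∧ n < d ∧ n = ‖z - r‖ ∧ d = ‖1 - (r : ℂ) * z‖ ∧
      (d - n) * (P r).re ≤ (d + n) * (P z).re ∧ (d - n) * (d + n) = (1 - ‖z‖ ^ 2) * (1 - r ^ 2) := by
  have hr := mem_real h0 h1
  have hd : 0 < ‖1 - (r : ℂ) * z‖ := by
    rw [norm_pos_iff, sub_ne_zero]
    intro h
    have h2 : ‖(r : ℂ) * z‖ < 1 := by
      rw [norm_mul, Complex.norm_real, Real.norm_of_nonneg h0]
      have hz' : ‖z‖ < 1 := by simpa using hz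
      nlinarith [norm_nonneg z]
    rw [← h] at h2
    simp at h2
  obtain ⟨g1, g2, -, -⟩ := c1 P hP z hz r hr (‖z - r‖ / ‖1 - (r : ℂ) * z‖) (by
    rw [Complex.conj_ofReal])
  refine ⟨‖z - r‖, ‖1 - (r : ℂ) * z‖, norm_nonneg _, hd, ?_, rfl, rfl, ?_, ?_⟩
  · rwa [div_lt_one hd] at g1
  · have e1 : ‖z - r‖ = (‖z - r‖ / ‖1 - (r : ℂ) * z‖) * ‖1 - (r : ℂ) * z‖ :=
      (div_mul_cancel₀ _ hd.ne').symm
    have h2 := mul_le_mul_of_nonneg_left g2 hd.le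
    calc (‖1 - (r : ℂ) * z‖ - ‖z - r‖) * (P r).re
        = ‖1 - (r : ℂ) * z‖ * ((1 - ‖z - r‖ / ‖1 - (r : ℂ) * z‖) * (P r).re) := by
          rw [← mul_assoc, mul_sub, mul_one, mul_comm _ (‖z - r‖ / _), ← e1]
      _ ≤ ‖1 - (r : ℂ) * z‖ * ((1 + ‖z - r‖ / ‖1 - (r : ℂ) * z‖) * (P z).re) := h2
      _ = (‖1 - (r : ℂ) * z‖ + ‖z - r‖) * (P z).re := by
          rw [← mul_assoc, mul_add, mul_one, mul_comm _ (‖z - r‖ / _), ← e1]
  · have h2 : ‖1 - (r : ℂ) * z‖ ^ 2 = (1 - r * z.re) ^ 2 + (r * z.im) ^ 2 := by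
      rw [Complex.sq_norm, Complex.normSq_apply]
      simp
      ring
    have h3 : ‖z - r‖ ^ 2 = (z.re - r) ^ 2 + z.im ^ 2 := by
      rw [Complex.sq_norm, Complex.normSq_apply]
      simp
      ring
    have h4 : ‖z‖ ^ 2 = z.re ^ 2 + z.im ^ 2 := by
      rw [Complex.sq_norm, Complex.normSq_apply]
      ring
    have h5 : (‖1 - (r : ℂ) * z‖ - ‖z - r‖) * (‖1 - (r : ℂ) * z‖ + ‖z - r‖) =
        ‖1 - (r : ℂ) * z‖ ^ 2 - ‖z - r‖ ^ 2 := by ring
    rw [h5, h2, h3, h4]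
    ring

/-- the monotone quantity -/
noncomputable def m (P : ℂ → ℂ) (r : ℝ) : ℝ := (1 - r) / (1 + r) * (P r).re

lemma m_anti (c1 : Har) {P : ℂ → ℂ} (hP : Car P) {r r' : ℝ} (h0 : 0 ≤ r) (hrr : r ≤ r')
    (h1 : r' < 1) : m P r' ≤ m P r := by
  have hr := mem_real h0 (lt_of_le_of_lt hrr h1)
  obtain ⟨n, d, hn, hd, hnd, en, ed, g1, g2⟩ := key c1 hP hr (h0.trans hrr) h1
  have e1 : n = r' - r := by
    rw [en, ← Complex.ofReal_sub, Complex.norm_real, Real.norm_eq_abs, abs_sub_comm,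
      abs_of_nonneg (by linarith)]
  have e2 : d = 1 - r' * r := by
    rw [ed, ← Complex.ofReal_mul, ← Complex.ofReal_one, ← Complex.ofReal_sub, Complex.norm_real,
      Real.norm_of_nonneg]
    nlinarith
  rw [m, m, div_mul_eq_mul_div, div_mul_eq_mul_div, div_le_div_iff₀ (by linarith) (by linarith)]
  have e3 : d - n = (1 - r') * (1 + r) := by rw [e1, e2]; ring
  have e4 : d + n = (1 + r') * (1 - r) := by rw [e1, e2]; ring
  rw [e3, e4] at g1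
  linarith

lemma m_nonneg {P : ℂ → ℂ} (hP : Car P) {r : ℝ} (h0 : 0 ≤ r) (h1 : r < 1) : 0 ≤ m P r :=
  mul_nonneg (div_nonneg (by linarith) (by linarith)) (hP.2 _ (mem_real h0 h1))

end C2

open C2 in
theorem prfJul (c1 : Har) : Jul := by
  intro P hP
  set S : Set ℝ := m P '' Ico 0 1 with hS
  have hne : S.Nonempty := ⟨m P 0, 0, ⟨le_rfl, one_pos⟩, rfl⟩
  have hbdd : BddBelow S := by
    refine ⟨0, ?_⟩
    rintro _ ⟨r, hr, rfl⟩
    exact m_nonneg hP hr.1 hr.2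
  have hle : ∀ r : ℝ, 0 ≤ r → r < 1 → sInf S ≤ m P r := fun r h0 h1 =>
    csInf_le hbdd ⟨r, ⟨h0, h1⟩, rfl⟩
  have hα : 0 ≤ sInf S := by
    apply le_csInf hne
    rintro _ ⟨r, hr, rfl⟩
    exact m_nonneg hP hr.1 hr.2
  refine ⟨sInf S, hα, ?_, ?_⟩
  · intro z hz
    have hz' : ‖z‖ < 1 := by simpa using hz
    have hd1 : 0 < ‖1 - z‖ := by
      rw [norm_pos_iff, sub_ne_zero]
      rintro rfl
      simp at hz'
    have hzp : 0 ≤ (P z).re := hP.2 z hz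
    have hineq : ∀ r : ℝ, 0 ≤ r → r < 1 →
        sInf S * (1 - ‖z‖ ^ 2) * (1 + r) ^ 2 ≤ 4 * ‖1 - (r : ℂ) * z‖ ^ 2 * (P z).re := by
      intro r h0 h1
      obtain ⟨n, d, hn, hd, hnd, en, ed, g1, g2⟩ := key c1 hP hz h0 h1
      rw [← ed]
      have h2 := hle r h0 h1
      rw [m, div_mul_eq_mul_div, le_div_iff₀ (by linarith)] at h2
      have h3 : 0 ≤ 1 - ‖z‖ ^ 2 := by nlinarith [norm_nonneg z]
      have h4 : (d + n) * ((d - n) * (P r).re) ≤ (d + n) * ((d + n) * (P z).re) :=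
        mul_le_mul_of_nonneg_left g1 (by linarith)
      have h5 : (d + n) * ((d + n) * (P z).re) ≤ 4 * d ^ 2 * (P z).re := by
        have : (d + n) * (d + n) ≤ 4 * d ^ 2 := by nlinarith
        nlinarith
      calc sInf S * (1 - ‖z‖ ^ 2) * (1 + r) ^ 2
          = (1 - ‖z‖ ^ 2) * (1 + r) * (sInf S * (1 + r)) := by ring
        _ ≤ (1 - ‖z‖ ^ 2) * (1 + r) * ((1 - r) * (P r).re) :=
          mul_le_mul_of_nonneg_left h2 (mul_nonneg h3 (by linarith))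
        _ = (d + n) * ((d - n) * (P r).re) := by
          rw [← mul_assoc (d + n), mul_comm (d + n), g2]
          ring
        _ ≤ 4 * d ^ 2 * (P z).re := h4.trans h5
    have hlim1 : Tendsto (fun r : ℝ => sInf S * (1 - ‖z‖ ^ 2) * (1 + r) ^ 2) (𝓝[<] 1)
        (𝓝 (sInf S * (1 - ‖z‖ ^ 2) * (1 + 1) ^ 2)) := by
      apply Tendsto.mono_left _ nhdsWithin_le_nhds
      exact Continuous.tendsto (by fun_prop) 1
    have hlim2 : Tendsto (fun r : ℝ => 4 * ‖1 - (r : ℂ) * z‖ ^ 2 * (P z).re) (𝓝[<] 1)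
        (𝓝 (4 * ‖1 - ((1 : ℝ) : ℂ) * z‖ ^ 2 * (P z).re)) := by
      apply Tendsto.mono_left _ nhdsWithin_le_nhds
      exact Continuous.tendsto (by fun_prop) 1
    have hfin := le_of_tendsto_of_tendsto hlim1 hlim2 (by
      have h01 : Ioo (0 : ℝ) 1 ∈ 𝓝[<] (1 : ℝ) := Ioo_mem_nhdsLT one_pos
      filter_upwards [h01] with r hr
      exact hineq r hr.1.le hr.2)
    rw [Complex.ofReal_one, one_mul] at hfin
    rw [div_le_iff₀ (by positivity)]
    nlinarith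
  · have hm : Tendsto (m P) (𝓝[<] 1) (𝓝 (sInf S)) := by
      rw [Metric.tendsto_nhdsWithin_nhds]
      intro ε hε
      obtain ⟨_, ⟨r0, hr0, rfl⟩, hr0'⟩ := exists_lt_of_csInf_lt hne
        (show sInf S < sInf S + ε by linarith)
      refine ⟨1 - r0, by linarith [hr0.2], ?_⟩
      intro r hr hd
      have hr1 : r < 1 := hr
      rw [Real.dist_eq, abs_sub_comm, abs_of_pos (by linarith)] at hd
      have h1 : r0 ≤ r := by linarith
      have h2 := m_anti c1 hP hr0.1 h1 hr1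
      have h3 := hle r (hr0.1.trans h1) hr1
      rw [Real.dist_eq, abs_of_nonneg (by linarith)]
      linarith
    have h1 : Tendsto (fun r : ℝ => (1 + r) * m P r) (𝓝[<] 1) (𝓝 ((1 + 1) * sInf S)) := by
      apply Tendsto.mul _ hm
      apply Tendsto.mono_left _ nhdsWithin_le_nhds
      exact Continuous.tendsto (by fun_prop) 1
    have e : (1 + 1 : ℝ) * sInf S = 2 * sInf S := by ring
    rw [e] at h1
    apply h1.congr'
    have h01 : Ioo (0 : ℝ) 1 ∈ 𝓝[<] (1 : ℝ) := Ioo_mem_nhdsLT one_pos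
    filter_upwards [h01] with r hr
    have hr0 : (1 + r) ≠ 0 := by linarith [hr.1]
    rw [m]
    field_simp

end Pool.Agent.MultS
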