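import Pool.Agent.Work.MP_b17785_an.Stmts
import Pool.Agent.Work.MP_a78000_an.HolInv

/-!
# Coefficient multipliers of the class S: module D5, the blow-up of `F`
-/

set_option autoImplicit false

open Complex Metric Set Filter Topology MeasureTheory Finset

namespace Pool.Agent.MultS

namespace D5

variable {h : ℂ → ℂ}

lemma ne0 (hS : Sc h) {z : ℂ} (hz : z ∈ ball (0 : ℂ) 1) : deriv h z ≠ 0 :=
  Pool.Agent.HolInv.deriv_ne_zero isOpen_ball hS.1 hS.2.1 hz

lemma diff1 (hS : Sc h) : DifferentiableOn ℂ (deriv h) (ball 0 1) := hS.1.deriv isOpen_ball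

lemma diff2 (hS : Sc h) : DifferentiableOn ℂ (deriv (deriv h)) (ball 0 1) :=
  (diff1 hS).deriv isOpen_ball

lemma PP_diff (hS : Sc h) : DifferentiableOn ℂ (PP h) (ball 0 1) := by
  unfold PP
  exact ((differentiableOn_id.mul (diff2 hS)).div (diff1 hS) fun z hz => ne0 hS hz).const_add 1

lemma PP_zero : PP h 0 = 1 := by simp [PP]

lemma PP_bound (hS : Sc h) (hpos : ∀ z ∈ ball (0 : ℂ) 1, 0 < (PP h z).re) {z : ℂ}
    (hz : z ∈ ball (0 : ℂ) 1) : ‖PP h z‖ * (1 - ‖z‖) ≤ 1 + ‖z‖ := by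
  have hden : ∀ w ∈ ball (0 : ℂ) 1, PP h w + 1 ≠ 0 := by
    intro w hw h0
    have h1 := congrArg Complex.re h0
    simp only [add_re, one_re, zero_re] at h1
    linarith [hpos w hw]
  have hd : DifferentiableOn ℂ (fun w => (PP h w - 1) / (PP h w + 1)) (ball 0 1) :=
    ((PP_diff hS).sub_const 1).div ((PP_diff hS).add_const 1) hden
  have hmaps : MapsTo (fun w => (PP h w - 1) / (PP h w + 1)) (ball 0 1) (closedBall 0 1) := by
    intro w hw
    rw [mem_closedBall, dist_zero_right, norm_div, div_le_one (norm_pos_iff.2 (hden w hw))]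
    rw [← abs_of_nonneg (norm_nonneg (PP h w - 1)), ← abs_of_nonneg (norm_nonneg (PP h w + 1)),
      ← sq_le_sq, ← Complex.normSq_eq_norm_sq, ← Complex.normSq_eq_norm_sq,
      Complex.normSq_apply, Complex.normSq_apply]
    simp only [sub_re, add_re, one_re, sub_im, add_im, one_im]
    nlinarith [hpos w hw]
  have h0 : (fun w => (PP h w - 1) / (PP h w + 1)) 0 = 0 := by
    simp [PP_zero]
  have hz' : ‖z‖ < 1 := by simpa using hz
  have h1 := Complex.norm_le_norm_of_mapsTo_ball hd hmaps h0 hz'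
  have h2 : ‖PP h z - 1‖ ≤ ‖z‖ * ‖PP h z + 1‖ := by
    have h3 : ‖(PP h z - 1) / (PP h z + 1)‖ ≤ ‖z‖ := h1
    rw [norm_div, div_le_iff₀ (norm_pos_iff.2 (hden z hz))] at h3
    exact h3
  have h3 : ‖PP h z‖ ≤ ‖PP h z - 1‖ + 1 := by
    have := norm_add_le (PP h z - 1) 1
    simpa using this
  have h4 : ‖PP h z + 1‖ ≤ ‖PP h z‖ + 1 := by
    have := norm_add_le (PP h z) 1
    simpa using this
  nlinarith [norm_nonneg z, mul_le_mul_of_nonneg_left h4 (norm_nonneg z)]

/-- the segment from `1` to `u` -/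
noncomputable def v (u : ℂ) (t : ℝ) : ℂ := 1 + (t : ℂ) * (u - 1)

lemma v_re (u : ℂ) (t : ℝ) : (v u t).re = 1 + t * (u.re - 1) := by
  simp [v]

lemma v_re_ge {u : ℂ} {η : ℝ} (hη : η ≤ u.re) {t : ℝ} (ht : t ∈ Icc (0 : ℝ) 1) :
    min η 1 ≤ (v u t).re := by
  rw [v_re]
  rcases le_total u.re 1 with h1 | h1
  · have : min η 1 ≤ u.re := (min_le_left _ _).trans hη
    nlinarith [ht.1, ht.2]
  · have : min η 1 ≤ 1 := min_le_right _ _
    nlinarith [ht.1, ht.2]

lemma v_hasDerivAt (u : ℂ) (t : ℝ) : HasDerivAt (v u) (u - 1) t := by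
  have h1 : HasDerivAt (fun t : ℝ => (t : ℂ)) 1 t := by
    have := (hasDerivAt_id t).ofReal_comp
    simpa using this
  have h2 := (h1.mul_const (u - 1)).const_add 1
  rw [one_mul] at h2
  exact h2

/-- the point of the disk -/
noncomputable def pt (ε : ℝ) (u : ℂ) (t : ℝ) : ℂ := exp (-((ε : ℂ) * v u t))

lemma pt_norm (ε : ℝ) (u : ℂ) (t : ℝ) : ‖pt ε u t‖ = Real.exp (-(ε * (v u t).re)) := by
  rw [pt, Complex.norm_exp]
  congr 1
  simp

lemma pt_mem {ε : ℝ} {u : ℂ} {t : ℝ} (hε : 0 < ε) (h : 0 < (v u t).re) :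
    pt ε u t ∈ ball (0 : ℂ) 1 := by
  rw [mem_ball_zero_iff, pt_norm, Real.exp_lt_one_iff]
  have := mul_pos hε h
  linarith

/-- the coefficient of the differential equation -/
noncomputable def kk (h : ℂ → ℂ) (ε : ℝ) (u : ℂ) (t : ℝ) : ℂ :=
  ((ε : ℂ) * PP h (pt ε u t)) * (u - 1)

lemma pt_hasDerivAt (ε : ℝ) (u : ℂ) (t : ℝ) :
    HasDerivAt (pt ε u) (pt ε u t * (-((ε : ℂ) * (u - 1)))) t :=
  (((v_hasDerivAt u t).const_mul (ε : ℂ)).neg).cexp

lemma FF_hasDerivAt (hS : Sc h) {z : ℂ} (hz : z ∈ ball (0 : ℂ) 1) :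
    HasDerivAt (FF h) (deriv h z + z * deriv (deriv h) z) z := by
  have h1 : HasDerivAt (deriv h) (deriv (deriv h) z) z :=
    ((diff1 hS).differentiableAt (isOpen_ball.mem_nhds hz)).hasDerivAt
  have h2 := (hasDerivAt_id z).mul h1
  simp only [one_mul, id_eq] at h2
  exact h2

/-- `F` along the segment -/
noncomputable def GG (h : ℂ → ℂ) (ε : ℝ) (u : ℂ) (t : ℝ) : ℂ := FF h (pt ε u t)

lemma GG_hasDerivAt (hS : Sc h) {ε : ℝ} {u : ℂ} {t : ℝ} (hε : 0 < ε) (hv : 0 < (v u t).re) :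
    HasDerivAt (GG h ε u) (-(kk h ε u t * GG h ε u t)) t := by
  have hz := pt_mem hε hv
  have h1 := (FF_hasDerivAt hS hz).comp t (pt_hasDerivAt ε u t)
  have h2 : (deriv h (pt ε u t) + pt ε u t * deriv (deriv h) (pt ε u t)) *
      (pt ε u t * (-((ε : ℂ) * (u - 1)))) = -(kk h ε u t * GG h ε u t) := by
    rw [kk, GG, FF, PP]
    have := ne0 hS hz
    field_simp
  rw [h2] at h1
  exact h1

lemma kk_continuousOn (hS : Sc h) {ε : ℝ} {u : ℂ} (hε : 0 < ε) :
    ContinuousOn (kk h ε u) {t : ℝ | 0 < (v u t).re} := by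
  unfold kk
  refine (continuousOn_const.mul ?_).mul continuousOn_const
  refine (PP_diff hS).continuousOn.comp ?_ fun t ht => pt_mem hε ht
  exact fun t _ => (pt_hasDerivAt ε u t).continuousAt.continuousWithinAt

lemma isOpen_v (u : ℂ) : IsOpen {t : ℝ | 0 < (v u t).re} := by
  have : Continuous fun t : ℝ => (v u t).re := by
    simp only [v_re]
    fun_prop
  exact isOpen_lt continuous_const this

lemma Icc_sub {u : ℂ} (hu : 0 < u.re) : Icc (0 : ℝ) 1 ⊆ {t : ℝ | 0 < (v u t).re} := by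
  intro t ht
  have h1 := v_re_ge (le_refl u.re) ht
  exact lt_of_lt_of_le (lt_min hu one_pos) h1

/-- the integral -/
noncomputable def KK (h : ℂ → ℂ) (ε : ℝ) (u : ℂ) (t : ℝ) : ℂ := ∫ s in (0 : ℝ)..t, kk h ε u s

lemma KK_hasDerivAt (hS : Sc h) {ε : ℝ} {u : ℂ} {t : ℝ} (hε : 0 < ε) (hu : 0 < u.re)
    (ht : t ∈ Icc (0 : ℝ) 1) : HasDerivAt (KK h ε u) (kk h ε u t) t := by
  have hc := kk_continuousOn (u := u) hS hε
  have hmem := Icc_sub hu ht
  refine intervalIntegral.integral_hasDerivAt_right ?_ ?_ ?_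
  · apply ContinuousOn.intervalIntegrable
    rw [uIcc_of_le ht.1]
    exact hc.mono ((Icc_subset_Icc_right ht.2).trans (Icc_sub hu))
  · exact hc.stronglyMeasurableAtFilter (isOpen_v u) t hmem
  · exact hc.continuousAt ((isOpen_v u).mem_nhds hmem)

lemma GG_eq (hS : Sc h) {ε : ℝ} {u : ℂ} (hε : 0 < ε) (hu : 0 < u.re) :
    GG h ε u 1 = GG h ε u 0 * exp (-(KK h ε u 1)) := by
  have hder : ∀ t ∈ Icc (0 : ℝ) 1,
      HasDerivAt (fun t => GG h ε u t * exp (KK h ε u t)) 0 t := by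
    intro t ht
    have h1 := (GG_hasDerivAt hS hε (Icc_sub hu ht)).mul (KK_hasDerivAt hS hε hu ht).cexp
    have h2 : -(kk h ε u t * GG h ε u t) * exp (KK h ε u t) +
        GG h ε u t * (exp (KK h ε u t) * kk h ε u t) = 0 := by ring
    rw [h2] at h1
    exact h1
  have h3 := constant_of_has_deriv_right_zero
    (f := fun t => GG h ε u t * exp (KK h ε u t)) (a := 0) (b := 1)
    (fun t ht => (hder t ht).continuousAt.continuousWithinAt)
    (fun t ht => (hder t ⟨ht.1, ht.2.le⟩).hasDerivWithinAt) 1 ⟨zero_le_one, le_refl 1⟩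
  have h4 : KK h ε u 0 = 0 := by simp [KK]
  simp only [h4, Complex.exp_zero, mul_one] at h3
  rw [← h3, mul_assoc, ← Complex.exp_add]
  simp

lemma kk_bound (hS : Sc h) (hpos : ∀ z ∈ ball (0 : ℂ) 1, 0 < (PP h z).re) {ε : ℝ} {u : ℂ}
    {t η : ℝ} (hε : 0 < ε) (hε1 : ε ≤ 1) (hη : 0 < η) (hηu : η ≤ u.re)
    (ht : t ∈ Icc (0 : ℝ) 1) :
    ‖kk h ε u t‖ ≤ 2 * (1 / min η 1 + 1) * ‖u - 1‖ := by
  have hm : 0 < min η 1 := lt_min hη one_pos
  have hv := v_re_ge hηu ht
  have hv0 : 0 < (v u t).re := lt_of_lt_of_le hm hv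
  have hz := pt_mem hε hv0
  have h1 := PP_bound hS hpos hz
  rw [kk, norm_mul]
  refine mul_le_mul_of_nonneg_right ?_ (norm_nonneg _)
  rw [norm_mul, Complex.norm_real, Real.norm_of_nonneg hε.le]
  set x := ε * (v u t).re with hx
  have hx0 : 0 < x := mul_pos hε hv0
  have h2 : ‖pt ε u t‖ = Real.exp (-x) := pt_norm ε u t
  rw [h2] at h1
  have h3 : Real.exp (-x) * (1 + x) ≤ 1 := by
    have h4 := Real.add_one_le_exp x
    have h5 : Real.exp (-x) * Real.exp x = 1 := by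
      rw [← Real.exp_add]
      simp
    nlinarith [Real.exp_pos (-x)]
  have h4 : 0 < 1 - Real.exp (-x) := by
    have : Real.exp (-x) < 1 := by
      rw [Real.exp_lt_one_iff]
      linarith
    linarith
  -- `(1 - e) (1 + x) ≥ x`
  have h5 : x ≤ (1 - Real.exp (-x)) * (1 + x) := by nlinarith
  have h6 : ‖PP h (pt ε u t)‖ * x ≤ 2 * (1 + x) := by
    have h7 : ‖PP h (pt ε u t)‖ * x ≤ ‖PP h (pt ε u t)‖ * ((1 - Real.exp (-x)) * (1 + x)) :=
      mul_le_mul_of_nonneg_left h5 (norm_nonneg _)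
    have h8 : ‖PP h (pt ε u t)‖ * (1 - Real.exp (-x)) * (1 + x) ≤
        (1 + Real.exp (-x)) * (1 + x) := mul_le_mul_of_nonneg_right h1 (by linarith)
    nlinarith
  -- divide by `Re v`
  have h7 : ε * ‖PP h (pt ε u t)‖ * (v u t).re ≤ 2 * (1 + x) := by
    calc ε * ‖PP h (pt ε u t)‖ * (v u t).re = ‖PP h (pt ε u t)‖ * x := by rw [hx]; ring
      _ ≤ 2 * (1 + x) := h6
  have h8 : ε * ‖PP h (pt ε u t)‖ ≤ 2 * (1 + x) / (v u t).re := by
    rw [le_div_iff₀ hv0]
    exact h7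
  refine h8.trans ?_
  have h9 : 2 * (1 + x) / (v u t).re = 2 * (1 / (v u t).re + ε) := by
    rw [hx]
    field_simp
  rw [h9]
  have h10 : 1 / (v u t).re ≤ 1 / min η 1 := one_div_le_one_div_of_le hm hv
  linarith

lemma KK_bound (hS : Sc h) (hpos : ∀ z ∈ ball (0 : ℂ) 1, 0 < (PP h z).re) {ε : ℝ} {u : ℂ}
    {η : ℝ} (hε : 0 < ε) (hε1 : ε ≤ 1) (hη : 0 < η) (hηu : η ≤ u.re) :
    ‖KK h ε u 1‖ ≤ 2 * (1 / min η 1 + 1) * ‖u - 1‖ := by
  have h1 := intervalIntegral.norm_integral_le_of_norm_le_const (f := kk h ε u) (a := 0)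
    (b := 1) (C := 2 * (1 / min η 1 + 1) * ‖u - 1‖) (by
      intro t ht
      rw [uIoc_of_le zero_le_one] at ht
      exact kk_bound hS hpos hε hε1 hη hηu ⟨ht.1.le, ht.2⟩)
  rw [sub_zero, abs_one, mul_one] at h1
  exact h1

lemma pt_zero (ε : ℝ) (u : ℂ) : pt ε u 0 = exp (-(ε : ℂ)) := by
  simp [pt, v]

lemma pt_one (ε : ℝ) (u : ℂ) : pt ε u 1 = exp (-((ε : ℂ) * u)) := by
  simp [pt, v]

end D5

open D5 in
theorem prfPsi : Psi := by
  intro h α hS hpos hlim
  have hone : ∀ ε : ℝ, 0 < ε → FF h (exp (-(ε : ℂ))) ≠ 0 := by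
    intro ε hε
    have hv : 0 < (v (1 : ℂ) 0).re := by simp [v]
    have hz := pt_mem (u := 1) (t := 0) hε hv
    rw [pt_zero] at hz
    exact mul_ne_zero (Complex.exp_ne_zero _) (ne0 hS hz)
  refine ⟨?_, ?_⟩
  · intro u hu
    -- the limit of the integral
    have hK : Tendsto (fun ε : ℝ => KK h ε u 1) (𝓝[>] (0 : ℝ))
        (𝓝 (∫ t in (0 : ℝ)..1, (2 * (α : ℂ) / v u t) * (u - 1))) := by
      refine intervalIntegral.tendsto_integral_filter_of_dominated_convergence
        (fun _ => 2 * (1 / min u.re 1 + 1) * ‖u - 1‖) ?_ ?_ ?_ ?_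
      · filter_upwards [self_mem_nhdsWithin] with ε hε
        rw [uIoc_of_le zero_le_one]
        exact ((kk_continuousOn hS hε).mono
          (Ioc_subset_Icc_self.trans (Icc_sub hu))).aestronglyMeasurable measurableSet_Ioc
      · have h1 : ∀ᶠ ε : ℝ in 𝓝[>] (0 : ℝ), ε ∈ Ioo (0 : ℝ) 1 := Ioo_mem_nhdsGT one_pos
        filter_upwards [h1] with ε hε
        refine Eventually.of_forall fun t ht => ?_
        rw [uIoc_of_le zero_le_one] at ht
        exact kk_bound hS hpos hε.1 hε.2.le hu le_rfl ⟨ht.1.le, ht.2⟩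
      · exact intervalIntegrable_const
      · refine Eventually.of_forall fun t ht => ?_
        rw [uIoc_of_le zero_le_one] at ht
        exact (hlim (v u t) (Icc_sub hu ⟨ht.1.le, ht.2⟩)).mul_const (u - 1)
    have hint : ∫ t in (0 : ℝ)..1, (2 * (α : ℂ) / v u t) * (u - 1) = 2 * (α : ℂ) * log u := by
      have hd : ∀ t ∈ uIcc (0 : ℝ) 1,
          HasDerivAt (fun t : ℝ => 2 * (α : ℂ) * log (v u t))
            ((2 * (α : ℂ) / v u t) * (u - 1)) t := by
        intro t ht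
        rw [Set.uIcc_of_le zero_le_one] at ht
        have hv := Icc_sub hu ht
        have hsl : v u t ∈ slitPlane := Or.inl hv
        have h1 := ((v_hasDerivAt u t).clog_real hsl).const_mul (2 * (α : ℂ))
        have h2 : 2 * (α : ℂ) * ((u - 1) / v u t) = (2 * (α : ℂ) / v u t) * (u - 1) := by ring
        rw [h2] at h1
        exact h1
      have hi : IntervalIntegrable (fun t : ℝ => (2 * (α : ℂ) / v u t) * (u - 1)) volume 0 1 := by
        apply ContinuousOn.intervalIntegrable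
        rw [Set.uIcc_of_le zero_le_one]
        refine (continuousOn_const.div ?_ ?_).mul continuousOn_const
        · exact fun t _ => (v_hasDerivAt u t).continuousAt.continuousWithinAt
        · intro t ht h0
          have hv := Icc_sub hu ht
          have : 0 < (v u t).re := hv
          rw [h0] at this
          simp at this
      rw [intervalIntegral.integral_eq_sub_of_hasDerivAt hd hi]
      simp [v]
    rw [hint] at hK
    have h2 : Tendsto (fun ε : ℝ => exp (-(KK h ε u 1))) (𝓝[>] (0 : ℝ))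
        (𝓝 (u ^ (-(2 * (α : ℂ))))) := by
      have hu0 : u ≠ 0 := by
        rintro rfl
        simp at hu
      have h3 : u ^ (-(2 * (α : ℂ))) = exp (-(2 * (α : ℂ) * log u)) := by
        rw [Complex.cpow_def_of_ne_zero hu0]
        congr 1
        ring
      rw [h3]
      exact (Complex.continuous_exp.tendsto _).comp hK.neg
    refine h2.congr' ?_
    filter_upwards [self_mem_nhdsWithin] with ε hε
    have h4 := GG_eq hS (ε := ε) (u := u) hε hu
    rw [GG, GG, pt_zero, pt_one] at h4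
    rw [h4, mul_div_cancel_left₀ _ (hone ε hε)]
  · intro η R hη
    refine ⟨Real.exp (2 * (1 / min η 1 + 1) * (R + 1)), ?_⟩
    intro ε hε hε1 u hu huR
    have hu0 : 0 < u.re := hη.trans_le hu
    have h4 := GG_eq hS (ε := ε) (u := u) hε hu0
    rw [GG, GG, pt_zero, pt_one] at h4
    rw [h4, norm_mul, mul_comm]
    refine mul_le_mul_of_nonneg_right ?_ (norm_nonneg _)
    have h5 := KK_bound hS hpos hε hε1 hη hu
    have h6 : ‖u - 1‖ ≤ R + 1 := by
      have := norm_sub_le u 1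
      rw [norm_one] at this
      linarith
    have hm : 0 < min η 1 := lt_min hη one_pos
    calc ‖exp (-(KK h ε u 1))‖ = Real.exp (-(KK h ε u 1)).re := Complex.norm_exp _
      _ ≤ Real.exp (2 * (1 / min η 1 + 1) * (R + 1)) := by
          apply Real.exp_le_exp.mpr
          calc (-(KK h ε u 1)).re ≤ ‖-(KK h ε u 1)‖ := Complex.re_le_norm _
            _ = ‖KK h ε u 1‖ := norm_neg _
            _ ≤ 2 * (1 / min η 1 + 1) * ‖u - 1‖ := h5
            _ ≤ 2 * (1 / min η 1 + 1) * (R + 1) := by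
                apply mul_le_mul_of_nonneg_left h6
                positivity

end Pool.Agent.MultS
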