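import Pool.Agent.Work.MP_b17785_an.StmtsK

/-!
# The area theorem in the form `|b₁| ≤ 1`
-/

set_option autoImplicit false

open Complex Metric Set Filter Topology MeasureTheory
open scoped ENNReal

namespace Pool.Agent.MultS
namespace K2

/-- the rectangle -/
def Rc (a b : ℝ) : Set ℂ := {z : ℂ | (a < z.re ∧ z.re < b) ∧ (0 < z.im ∧ z.im < 2 * Real.pi)}

lemma isOpen_Rc (a b : ℝ) : IsOpen (Rc a b) := by
  apply IsOpen.inter
  · exact (isOpen_lt continuous_const Complex.continuous_re).inter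
      (isOpen_lt Complex.continuous_re continuous_const)
  · exact (isOpen_lt continuous_const Complex.continuous_im).inter
      (isOpen_lt Complex.continuous_im continuous_const)

lemma exp_injOn_Rc (a b : ℝ) : InjOn Complex.exp (Rc a b) := by
  intro z hz w hw he
  rw [Complex.exp_eq_exp_iff_exists_int] at he
  obtain ⟨n, hn⟩ := he
  have h1 : z.im = w.im + n * (2 * Real.pi) := by
    have := congrArg Complex.im hn
    simpa using this
  have hp := Real.pi_pos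
  obtain ⟨-, h2, h3⟩ := hz
  obtain ⟨-, h4, h5⟩ := hw
  have h6 : (n : ℝ) < 1 := by
    by_contra h
    push Not at h
    nlinarith
  have h7 : (-1 : ℝ) < n := by
    by_contra h
    push Not at h
    nlinarith
  have h8 : n = 0 := by
    have h9 : n < 1 := by exact_mod_cast h6
    have h10 : -1 < n := by exact_mod_cast h7
    omega
  rw [hn, h8]; simp

lemma lintegral_Rc (a b : ℝ) (q : ℂ → ℝ≥0∞) (hq : AEMeasurable q (volume.restrict (Rc a b))) :
    ∫⁻ ζ in Rc a b, q ζ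
      = ∫⁻ t in Ioo a b, ∫⁻ θ in Ioo (0:ℝ) (2 * Real.pi), q (t + θ * I) := by
  have hmp := Complex.volume_preserving_equiv_real_prod.symm Complex.measurableEquivRealProd
  have hpre : Complex.measurableEquivRealProd.symm ⁻¹' (Rc a b)
      = (Ioo a b) ×ˢ (Ioo (0:ℝ) (2 * Real.pi)) := by
    ext p
    simp [Rc, Complex.measurableEquivRealProd_symm_apply]
  have h1 := hmp.setLIntegral_comp_preimage_emb
    (Complex.measurableEquivRealProd.symm.measurableEmbedding) q (Rc a b)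
  rw [hpre] at h1
  rw [← h1]
  have hmeas : AEMeasurable (fun p : ℝ × ℝ => q (Complex.measurableEquivRealProd.symm p))
      ((volume.prod volume).restrict ((Ioo a b) ×ˢ (Ioo (0:ℝ) (2 * Real.pi)))) := by
    have h2 := hmp.restrict_preimage (s := Rc a b) (isOpen_Rc a b).measurableSet
    rw [hpre] at h2
    exact hq.comp_quasiMeasurePreserving h2.quasiMeasurePreserving
  have h3 := setLIntegral_prod _ hmeas
  rw [← MeasureTheory.Measure.volume_eq_prod] at h3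
  rw [h3]
  apply lintegral_congr; intro t
  apply lintegral_congr; intro θ
  congr 1
  rw [Complex.measurableEquivRealProd_symm_apply]
  apply Complex.ext <;> simp

lemma det_eq (A : ℂ →L[ℝ] ℂ) : A.det = (A 1).re * (A I).im - (A I).re * (A 1).im := by
  rw [ContinuousLinearMap.det, ← LinearMap.det_toMatrix Complex.basisOneI, Matrix.det_fin_two]
  simp [LinearMap.toMatrix_apply]

/-- multiplication by `a` as a real-linear map -/
noncomputable def mulL (a : ℂ) : ℂ →L[ℝ] ℂ :=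
  (ContinuousLinearMap.toSpanSingleton ℂ a).restrictScalars ℝ

@[simp] lemma mulL_apply (a v : ℂ) : mulL a v = a * v := by simp [mulL, mul_comm]

lemma det_mulL (a : ℂ) : (mulL a).det = ‖a‖^2 := by
  rw [det_eq, ← Complex.normSq_eq_norm_sq, Complex.normSq_apply]
  simp

/-- the map `w - κ conj w` -/
noncomputable def LL (κ : ℂ) : ℂ →L[ℝ] ℂ :=
  ContinuousLinearMap.id ℝ ℂ - (mulL κ).comp (Complex.conjCLE : ℂ →L[ℝ] ℂ)

@[simp] lemma LL_apply (κ w : ℂ) : LL κ w = w - κ * (starRingEnd ℂ) w := by simp [LL]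

lemma det_LL (κ : ℂ) : (LL κ).det = 1 - ‖κ‖ ^ 2 := by
  rw [det_eq, ← Complex.normSq_eq_norm_sq, Complex.normSq_apply]
  simp
  ring

lemma area_upper (κ : ℂ) (hκ : ‖κ‖ < 1) (M : ℝ) (hM : 0 ≤ M) (s : Set ℂ)
    (hs : ∀ w ∈ s, ‖LL κ w‖ ≤ M) :
    volume s ≤ ENNReal.ofReal (Real.pi * M ^ 2 / (1 - ‖κ‖ ^ 2)) := by
  have hd : 0 < 1 - ‖κ‖ ^ 2 := by nlinarith [norm_nonneg κ]
  have h1 : s ⊆ (LL κ) ⁻¹' (closedBall 0 M) := by
    intro w hw
    simpa using hs w hw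
  have hne : LinearMap.det ((LL κ : ℂ →L[ℝ] ℂ) : ℂ →ₗ[ℝ] ℂ) ≠ 0 := by
    have := det_LL κ
    rw [ContinuousLinearMap.det] at this
    rw [this]; exact hd.ne'
  refine (measure_mono h1).trans ?_
  rw [Measure.addHaar_preimage_continuousLinearMap _ hne, Complex.volume_closedBall]
  have h2 := det_LL κ
  rw [ContinuousLinearMap.det] at h2
  rw [h2, abs_of_pos (inv_pos.mpr hd)]
  have h3 : (NNReal.pi : ℝ≥0∞) = ENNReal.ofReal Real.pi := by
    rw [← NNReal.coe_real_pi, ENNReal.ofReal_coe_nnreal]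
  rw [h3, ← ENNReal.ofReal_pow hM, ← ENNReal.ofReal_mul (by positivity),
    ← ENNReal.ofReal_mul (by positivity)]
  apply le_of_eq
  congr 1
  field_simp

/-- the derivative of `ψ ∘ exp` -/
noncomputable def gg (c : ℂ → ℂ) (ζ : ℂ) : ℂ := -Complex.exp (-ζ) + c (Complex.exp ζ) * Complex.exp ζ

lemma mean_re (H : ℂ → ℂ) (hH : DifferentiableOn ℂ H (ball 0 1)) (t : ℝ) (ht : t < 0) :
    ∫ θ in (0:ℝ)..(2 * Real.pi), (H (Complex.exp (t + θ * I))).re = 2 * Real.pi * (H 0).re := by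
  have hR : |Real.exp t| < 1 := by
    rw [abs_of_pos (Real.exp_pos t)]; exact Real.exp_lt_one_iff.mpr ht
  have h1 : DiffContOnCl ℂ H (ball 0 |Real.exp t|) := by
    apply DifferentiableOn.diffContOnCl
    apply hH.mono
    refine closure_ball_subset_closedBall.trans ?_
    exact closedBall_subset_ball hR
  have h2 := h1.circleAverage
  rw [Real.circleAverage_def] at h2
  have h3 : ∀ θ : ℝ, circleMap 0 (Real.exp t) θ = Complex.exp (t + θ * I) := by
    intro θ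
    rw [circleMap_zero, Complex.exp_add, Complex.ofReal_exp]
  have hc : Continuous fun θ : ℝ => H (Complex.exp (t + θ * I)) := by
    apply ContinuousOn.comp_continuous hH.continuousOn
    · fun_prop
    · intro θ
      rw [mem_ball_zero_iff, Complex.norm_exp]
      simpa using ht
  have h4 : ∫ θ in (0:ℝ)..(2 * Real.pi), H (Complex.exp (t + θ * I)) = (2 * Real.pi : ℝ) • H 0 := by
    rw [← h2, smul_smul, mul_inv_cancel₀ (by positivity), one_smul]
    simp only [h3]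
  have h5 : ∫ θ in (0:ℝ)..(2 * Real.pi), (H (Complex.exp (t + θ * I))).re
      = (∫ θ in (0:ℝ)..(2 * Real.pi), H (Complex.exp (t + θ * I))).re := by
    have := Complex.reCLM.intervalIntegral_comp_comm (hc.intervalIntegrable (0:ℝ) (2 * Real.pi))
      (μ := volume)
    simpa using this
  rw [h5, h4]
  simp

lemma point_lower (c b z : ℂ) (ρ : ℝ) (hρ : 0 < ρ) (hz : ‖z‖ = ρ) :
    (ρ ^ 2)⁻¹ - ρ ^ 2 * ‖b‖ ^ 2 +
      ((-(2 / ρ ^ 2 : ℝ) * z ^ 2 + (2 * ρ ^ 2 : ℝ) * (starRingEnd ℂ) b) * c).re ≤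
    ‖-z⁻¹ + c * z‖ ^ 2 := by
  have hz2 : z.re ^ 2 + z.im ^ 2 = ρ ^ 2 := by
    have := Complex.sq_norm z
    rw [hz, Complex.normSq_apply] at this
    nlinarith
  have hz0 : z ≠ 0 := by
    intro h; rw [h] at hz; simp at hz; linarith
  have hinv : z⁻¹ = ((ρ ^ 2)⁻¹ : ℝ) * (starRingEnd ℂ) z := by
    rw [Complex.inv_def, mul_comm, ← Complex.sq_norm, hz]
  rw [hinv]
  rw [← Complex.normSq_eq_norm_sq, ← Complex.normSq_eq_norm_sq, Complex.normSq_apply,
    Complex.normSq_apply]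
  have hr : (ρ ^ 2)⁻¹ * ρ ^ 2 = 1 := by field_simp
  set q : ℝ := (ρ ^ 2)⁻¹ with hq
  have e1 : (2 / ρ ^ 2 : ℝ) = 2 * q := by rw [hq]; ring
  rw [e1]
  simp only [pow_two z, Complex.add_re, Complex.add_im, Complex.neg_re, Complex.neg_im,
    Complex.mul_re, Complex.mul_im, Complex.ofReal_re, Complex.ofReal_im, Complex.conj_re,
    Complex.conj_im]
  have hx : z.im ^ 2 = ρ ^ 2 - z.re ^ 2 := by linarith
  have key : (-(q * z.re - 0 * -z.im) + (c.re * z.re - c.im * z.im)) *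
        (-(q * z.re - 0 * -z.im) + (c.re * z.re - c.im * z.im)) +
      (-(q * -z.im + 0 * z.re) + (c.re * z.im + c.im * z.re)) *
        (-(q * -z.im + 0 * z.re) + (c.re * z.im + c.im * z.re))
      = q - 2 * q * (c.re * (z.re ^ 2 - z.im ^ 2) - 2 * c.im * z.re * z.im)
        + ρ ^ 2 * (c.re ^ 2 + c.im ^ 2) := by
    have : q * (z.re ^ 2 + z.im ^ 2) = 1 := by rw [hz2]; exact hr
    have h6 : z.im ^ 2 * q = 1 - q * z.re ^ 2 := by linarith
    rw [← hz2]
    linear_combination q * this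
  rw [key]
  nlinarith [mul_nonneg (sq_nonneg ρ) (sq_nonneg (c.re - b.re)),
    mul_nonneg (sq_nonneg ρ) (sq_nonneg (c.im - b.im))]

lemma circle_lower (c : ℂ → ℂ) (hc : DifferentiableOn ℂ c (ball 0 1)) (t : ℝ) (ht : t < 0) :
    ENNReal.ofReal (2 * Real.pi * (Real.exp (-2 * t) + ‖c 0‖ ^ 2 * Real.exp (2 * t))) ≤
      ∫⁻ θ in Ioo (0:ℝ) (2 * Real.pi), ENNReal.ofReal (‖gg c (t + θ * I)‖ ^ 2) := by
  have hp := Real.pi_pos
  have hball : ∀ θ : ℝ, Complex.exp (t + θ * I) ∈ ball (0:ℂ) 1 := by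
    intro θ
    rw [mem_ball_zero_iff, Complex.norm_exp]
    simpa using ht
  have hcc : Continuous fun θ : ℝ => c (Complex.exp (t + θ * I)) :=
    hc.continuousOn.comp_continuous (by fun_prop) hball
  have hgc : Continuous fun θ : ℝ => ‖gg c (t + θ * I)‖ ^ 2 := by
    have h1 : Continuous fun θ : ℝ => Complex.exp (t + θ * I) := by fun_prop
    have h2 : Continuous fun θ : ℝ => -Complex.exp (-((t:ℂ) + θ * I)) := by fun_prop
    exact ((h2.add (hcc.mul h1)).norm).pow 2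
  have hgi : IntervalIntegrable (fun θ : ℝ => ‖gg c (t + θ * I)‖ ^ 2) volume 0 (2 * Real.pi) :=
    hgc.intervalIntegrable _ _
  rw [restrict_Ioo_eq_restrict_Ioc]
  rw [← ofReal_integral_eq_lintegral_ofReal]
  · apply ENNReal.ofReal_le_ofReal
    rw [← intervalIntegral.integral_of_le (by positivity)]
    set ρ : ℝ := Real.exp t with hρ
    have hρ0 : 0 < ρ := Real.exp_pos t
    set H : ℂ → ℂ := fun z => (-(2 / ρ ^ 2 : ℝ) * z ^ 2 + (2 * ρ ^ 2 : ℝ) *
      (starRingEnd ℂ) (c 0)) * c z with hH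
    have hHd : DifferentiableOn ℂ H (ball 0 1) := by
      rw [hH]
      apply DifferentiableOn.mul _ hc
      fun_prop
    have h1 := mean_re H hHd t ht
    have h2 : ∀ θ : ℝ, (ρ ^ 2)⁻¹ - ρ ^ 2 * ‖c 0‖ ^ 2 + (H (Complex.exp (t + θ * I))).re ≤
        ‖gg c (t + θ * I)‖ ^ 2 := by
      intro θ
      have := point_lower (c (Complex.exp (t + θ * I))) (c 0) (Complex.exp (t + θ * I)) ρ hρ0
        (by rw [Complex.norm_exp]; simp [hρ])
      unfold gg
      rw [Complex.exp_neg]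
      exact this
    have hHc : Continuous fun θ : ℝ => (H (Complex.exp (t + θ * I))).re :=
      Complex.continuous_re.comp (hHd.continuousOn.comp_continuous (by fun_prop) hball)
    have h3 : ∫ θ in (0:ℝ)..(2 * Real.pi), ((ρ ^ 2)⁻¹ - ρ ^ 2 * ‖c 0‖ ^ 2 +
        (H (Complex.exp (t + θ * I))).re) ≤
        ∫ θ in (0:ℝ)..(2 * Real.pi), ‖gg c (t + θ * I)‖ ^ 2 := by
      apply intervalIntegral.integral_mono (by positivity) _ hgi h2
      exact (continuous_const.add hHc).intervalIntegrable _ _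
    refine le_trans (le_of_eq ?_) h3
    rw [intervalIntegral.integral_add (by simp) (hHc.intervalIntegrable _ _), h1]
    have e1 : (H 0).re = 2 * ρ ^ 2 * ‖c 0‖ ^ 2 := by
      rw [hH]
      simp only [ne_eq, OfNat.ofNat_ne_zero, not_false_eq_true, zero_pow, mul_zero, zero_add]
      rw [mul_assoc, mul_comm ((starRingEnd ℂ) (c 0)), Complex.mul_conj,
        Complex.normSq_eq_norm_sq, ← Complex.ofReal_mul, Complex.ofReal_re]
    rw [e1]
    have e2 : Real.exp (-2 * t) = (ρ ^ 2)⁻¹ := by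
      rw [hρ, ← Real.exp_nat_mul, ← Real.exp_neg]; congr 1; push_cast; ring
    have e3 : Real.exp (2 * t) = ρ ^ 2 := by
      rw [hρ, ← Real.exp_nat_mul]; congr 1
    rw [e2, e3]
    simp
    ring
  · exact (intervalIntegrable_iff_integrableOn_Ioc_of_le (by positivity)).mp hgi
  · exact Filter.Eventually.of_forall (fun θ => by positivity)

lemma exp_int (a b β : ℝ) (hab : a ≤ b) (hβ : 0 ≤ β) :
    ∫⁻ t in Ioo a b, ENNReal.ofReal (2 * Real.pi * (Real.exp (-2 * t) + β * Real.exp (2 * t)))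
      = ENNReal.ofReal (Real.pi * (Real.exp (-2 * a) - Real.exp (-2 * b))
        + Real.pi * β * (Real.exp (2 * b) - Real.exp (2 * a))) := by
  have hp := Real.pi_pos
  have hcont : Continuous fun t : ℝ =>
      2 * Real.pi * (Real.exp (-2 * t) + β * Real.exp (2 * t)) := by fun_prop
  have hi := hcont.intervalIntegrable (μ := volume) a b
  rw [restrict_Ioo_eq_restrict_Ioc]
  rw [← ofReal_integral_eq_lintegral_ofReal]
  · congr 1
    rw [← intervalIntegral.integral_of_le hab]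
    have hd : ∀ t ∈ uIcc a b, HasDerivAt (fun t : ℝ =>
        Real.pi * (-Real.exp (-2 * t)) + Real.pi * β * Real.exp (2 * t))
        (2 * Real.pi * (Real.exp (-2 * t) + β * Real.exp (2 * t))) t := by
      intro t _
      have h1 : HasDerivAt (fun t : ℝ => Real.exp (-2 * t)) (Real.exp (-2 * t) * (-2)) t := by
        simpa using ((hasDerivAt_id t).const_mul (-2)).exp
      have h2 : HasDerivAt (fun t : ℝ => Real.exp (2 * t)) (Real.exp (2 * t) * 2) t := by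
        simpa using ((hasDerivAt_id t).const_mul 2).exp
      have h3 := (h1.neg.const_mul Real.pi).add (h2.const_mul (Real.pi * β))
      refine h3.congr_deriv ?_
      ring
    rw [intervalIntegral.integral_eq_sub_of_hasDerivAt hd hi]
    ring
  · exact (intervalIntegrable_iff_integrableOn_Ioc_of_le hab).mp hi
  · exact Filter.Eventually.of_forall (fun t => by positivity)

lemma area_lower (χ : ℂ → ℂ) (hχ : DifferentiableOn ℂ χ (ball 0 1))
    (hinj : InjOn (fun z : ℂ => z⁻¹ + χ z) (ball 0 1 \ {0})) (a b : ℝ) (hab : a ≤ b) (hb : b < 0) :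
    ENNReal.ofReal (Real.pi * (Real.exp (-2 * a) - Real.exp (-2 * b))
        + Real.pi * ‖deriv χ 0‖ ^ 2 * (Real.exp (2 * b) - Real.exp (2 * a))) ≤
      volume ((fun z : ℂ => z⁻¹ + χ z) '' {z : ℂ | Real.exp a < ‖z‖ ∧ ‖z‖ < Real.exp b}) := by
  set ψ : ℂ → ℂ := fun z : ℂ => z⁻¹ + χ z with hψ
  have hc : DifferentiableOn ℂ (deriv χ) (ball 0 1) := hχ.deriv isOpen_ball
  have hsub : ∀ ζ ∈ Rc a b, Complex.exp ζ ∈ ball (0:ℂ) 1 \ {0} := by
    intro ζ hζ
    refine ⟨?_, by simp⟩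
    rw [mem_ball_zero_iff, Complex.norm_exp]
    exact Real.exp_lt_one_iff.mpr (hζ.1.2.trans hb)
  have hinj2 : InjOn (fun ζ => ψ (Complex.exp ζ)) (Rc a b) := by
    intro ζ hζ ξ hξ h
    exact exp_injOn_Rc a b hζ hξ (hinj (hsub ζ hζ) (hsub ξ hξ) h)
  have hder : ∀ ζ ∈ Rc a b, HasFDerivWithinAt (fun ζ => ψ (Complex.exp ζ))
      (mulL (gg (deriv χ) ζ)) (Rc a b) ζ := by
    intro ζ hζ
    have h0 := hsub ζ hζ
    have h1 : HasDerivAt χ (deriv χ (Complex.exp ζ)) (Complex.exp ζ) :=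
      (hχ.differentiableAt (isOpen_ball.mem_nhds h0.1)).hasDerivAt
    have h2 : HasDerivAt ψ (-(Complex.exp ζ ^ 2)⁻¹ + deriv χ (Complex.exp ζ)) (Complex.exp ζ) :=
      (hasDerivAt_inv (Complex.exp_ne_zero ζ)).add h1
    have h3 := h2.comp ζ (Complex.hasDerivAt_exp ζ)
    have h4 : (-(Complex.exp ζ ^ 2)⁻¹ + deriv χ (Complex.exp ζ)) * Complex.exp ζ
        = gg (deriv χ) ζ := by
      unfold gg
      rw [Complex.exp_neg]
      field_simp
    rw [h4] at h3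
    have := h3.hasFDerivAt.restrictScalars ℝ
    exact this.hasFDerivWithinAt
  have himg : (fun ζ => ψ (Complex.exp ζ)) '' (Rc a b) ⊆
      ψ '' {z : ℂ | Real.exp a < ‖z‖ ∧ ‖z‖ < Real.exp b} := by
    rintro _ ⟨ζ, hζ, rfl⟩
    refine ⟨Complex.exp ζ, ?_, rfl⟩
    rw [Set.mem_ofPred_eq, Complex.norm_exp]
    exact ⟨Real.exp_lt_exp.mpr hζ.1.1, Real.exp_lt_exp.mpr hζ.1.2⟩
  refine le_trans ?_ (measure_mono himg)
  rw [← lintegral_abs_det_fderiv_eq_addHaar_image volume (isOpen_Rc a b).measurableSet hder hinj2]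
  have hdet : ∀ ζ, ENNReal.ofReal |(mulL (gg (deriv χ) ζ)).det|
      = ENNReal.ofReal (‖gg (deriv χ) ζ‖ ^ 2) := by
    intro ζ
    rw [det_mulL, abs_of_nonneg (by positivity)]
  simp_rw [hdet]
  have hgc : ContinuousOn (fun ζ => ‖gg (deriv χ) ζ‖ ^ 2) (Rc a b) := by
    have h1 : ContinuousOn (fun ζ => deriv χ (Complex.exp ζ)) (Rc a b) :=
      hc.continuousOn.comp Complex.continuous_exp.continuousOn (fun ζ hζ => (hsub ζ hζ).1)
    unfold gg
    fun_prop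
  rw [lintegral_Rc a b _ ((hgc.aemeasurable (isOpen_Rc a b).measurableSet).ennreal_ofReal)]
  rw [← exp_int a b _ hab (by positivity)]
  apply setLIntegral_mono' measurableSet_Ioo
  intro t ht
  exact circle_lower (deriv χ) hc t (ht.2.trans hb)

lemma small_circle (χ : ℂ → ℂ) (hχ : DifferentiableOn ℂ χ (ball 0 1)) (h0 : χ 0 = 0) :
    ∃ C : ℝ, 0 ≤ C ∧ ∀ z : ℂ, ‖z‖ ≤ 1 / 2 → ‖χ z - deriv χ 0 * z‖ ≤ C * ‖z‖ ^ 2 := by
  have hn : ball (0:ℂ) 1 ∈ 𝓝 (0:ℂ) := isOpen_ball.mem_nhds (by simp)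
  have h1 : DifferentiableOn ℂ (dslope χ 0) (ball 0 1) := (differentiableOn_dslope hn).mpr hχ
  have h2 : DifferentiableOn ℂ (dslope (dslope χ 0) 0) (ball 0 1) :=
    (differentiableOn_dslope hn).mpr h1
  have hcb : closedBall (0:ℂ) (1/2) ⊆ ball 0 1 := closedBall_subset_ball (by norm_num)
  obtain ⟨C, hC⟩ := (isCompact_closedBall (0:ℂ) (1/2)).exists_bound_of_continuousOn
    (h2.continuousOn.mono hcb)
  have hC0 : 0 ≤ C := (norm_nonneg _).trans (hC 0 (by simp))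
  refine ⟨C, hC0, fun z hz => ?_⟩
  have e1 : χ z = z * dslope χ 0 z := by
    have := sub_smul_dslope χ 0 z
    simp only [sub_zero, smul_eq_mul, h0] at this
    exact this.symm
  have e2 : dslope χ 0 z - deriv χ 0 = z * dslope (dslope χ 0) 0 z := by
    have := sub_smul_dslope (dslope χ 0) 0 z
    simp only [sub_zero, smul_eq_mul, dslope_same] at this
    exact this.symm
  have e3 : χ z - deriv χ 0 * z = z ^ 2 * dslope (dslope χ 0) 0 z := by
    rw [e1, pow_two, mul_assoc, ← e2]; ring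
  rw [e3, norm_mul, norm_pow, mul_comm]
  exact mul_le_mul_of_nonneg_right (hC z (by simpa using hz)) (by positivity)

lemma LL_small (b E z : ℂ) (r C : ℝ) (hr : 0 < r) (hr1 : r ≤ 1) (hz : ‖z‖ = r)
    (hE : ‖E‖ ≤ C * r ^ 2) :
    ‖LL (b * (r ^ 2 : ℝ)) (z⁻¹ + b * z + E)‖ ≤ 1 / r + (C + ‖b‖ ^ 2 + ‖b‖ * C) * r ^ 2 := by
  have hz0 : z ≠ 0 := by
    intro h; rw [h] at hz; simp at hz; linarith
  have hC : 0 ≤ C := by
    have h1 : 0 ≤ C * r ^ 2 := (norm_nonneg _).trans hE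
    by_contra h
    push Not at h
    have : C * r ^ 2 < 0 := mul_neg_of_neg_of_pos h (by positivity)
    linarith
  have hinv : ((r ^ 2 : ℝ) : ℂ) * (starRingEnd ℂ) z⁻¹ = z := by
    rw [map_inv₀]
    have h1 : z * (starRingEnd ℂ) z = ((r ^ 2 : ℝ) : ℂ) := by
      rw [Complex.mul_conj, Complex.normSq_eq_norm_sq, hz]
    have h2 : (starRingEnd ℂ) z ≠ 0 := by simpa using hz0
    rw [← h1, mul_assoc, mul_inv_cancel₀ h2, mul_one]
  have e : LL (b * (r ^ 2 : ℝ)) (z⁻¹ + b * z + E)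
      = z⁻¹ + (E - b * (r ^ 2 : ℝ) * (starRingEnd ℂ) (b * z)
        - b * (r ^ 2 : ℝ) * (starRingEnd ℂ) E) := by
    rw [LL_apply, map_add, map_add, mul_add, mul_add, mul_assoc b _ ((starRingEnd ℂ) z⁻¹), hinv]
    ring
  rw [e]
  refine (norm_add_le _ _).trans ?_
  have e1 : ‖z⁻¹‖ = 1 / r := by rw [norm_inv, hz, one_div]
  rw [e1]
  gcongr
  refine (norm_sub_le _ _).trans ?_
  have e2 : ‖b * ((r ^ 2 : ℝ) : ℂ) * (starRingEnd ℂ) (b * z)‖ = ‖b‖ ^ 2 * r ^ 2 * r := by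
    rw [norm_mul, norm_mul, Complex.norm_real, RCLike.norm_conj, norm_mul, hz,
      Real.norm_of_nonneg (by positivity)]
    ring
  have e3 : ‖b * ((r ^ 2 : ℝ) : ℂ) * (starRingEnd ℂ) E‖ = ‖b‖ * r ^ 2 * ‖E‖ := by
    rw [norm_mul, norm_mul, Complex.norm_real, RCLike.norm_conj,
      Real.norm_of_nonneg (by positivity)]
  have h4 := norm_sub_le E (b * ((r ^ 2 : ℝ) : ℂ) * (starRingEnd ℂ) (b * z))
  rw [e2] at h4
  rw [e3]
  have h5 : ‖b‖ ^ 2 * r ^ 2 * r ≤ ‖b‖ ^ 2 * r ^ 2 := by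
    have : 0 ≤ ‖b‖ ^ 2 * r ^ 2 := by positivity
    nlinarith
  have h6 : ‖b‖ * r ^ 2 * ‖E‖ ≤ ‖b‖ * C * r ^ 2 := by
    have h7 : r ^ 2 ≤ 1 := by nlinarith
    have h8 : ‖E‖ * r ^ 2 ≤ ‖E‖ := by nlinarith [norm_nonneg E]
    calc ‖b‖ * r ^ 2 * ‖E‖ = ‖b‖ * (‖E‖ * r ^ 2) := by ring
      _ ≤ ‖b‖ * ‖E‖ := by gcongr
      _ ≤ ‖b‖ * (C * r ^ 2) := by gcongr
      _ = _ := by ring
  nlinarith

/-- maximum principle for `Re (c ψ)` on an annulus -/
lemma max_princ (f : ℂ → ℂ) (hf : DifferentiableOn ℂ f (ball 0 1 \ {0})) (r R M : ℝ)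
    (hr : 0 < r) (hR : R < 1)
    (h1 : ∀ z : ℂ, ‖z‖ = r → (f z).re ≤ M) (h2 : ∀ z : ℂ, ‖z‖ = R → (f z).re ≤ M)
    (z : ℂ) (hz : r < ‖z‖) (hz' : ‖z‖ < R) : (f z).re ≤ M := by
  set U : Set ℂ := {z : ℂ | r < ‖z‖ ∧ ‖z‖ < R} with hU
  have hUb : Bornology.IsBounded U := by
    apply (isBounded_ball (x := (0:ℂ)) (r := R)).subset
    intro w hw
    simpa using hw.2
  have hcl : closure U ⊆ {z : ℂ | r ≤ ‖z‖ ∧ ‖z‖ ≤ R} := by
    apply closure_minimal
    · intro w hw; exact ⟨hw.1.le, hw.2.le⟩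
    · exact (isClosed_le continuous_const continuous_norm).inter
        (isClosed_le continuous_norm continuous_const)
  have hclsub : closure U ⊆ ball (0:ℂ) 1 \ {0} := by
    intro w hw
    have := hcl hw
    refine ⟨by simpa using lt_of_le_of_lt this.2 hR, ?_⟩
    intro h
    rw [mem_singleton_iff] at h
    have h3 := this.1
    rw [h, norm_zero] at h3
    linarith
  have hUo : IsOpen U := (isOpen_lt continuous_const continuous_norm).inter
        (isOpen_lt continuous_norm continuous_const)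
  have hd : DiffContOnCl ℂ (fun z => Complex.exp (f z)) U := by
    apply DifferentiableOn.diffContOnCl
    exact (hf.mono hclsub).cexp
  have hfr : ∀ w ∈ frontier U, ‖Complex.exp (f w)‖ ≤ Real.exp M := by
    intro w hw
    rw [Complex.norm_exp]
    apply Real.exp_le_exp.mpr
    have h3 := hcl (frontier_subset_closure hw)
    have h4 : w ∉ U := by
      rw [frontier, hUo.interior_eq] at hw
      exact hw.2
    rcases eq_or_lt_of_le h3.1 with h5 | h5
    · exact h1 w h5.symm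
    · rcases eq_or_lt_of_le h3.2 with h6 | h6
      · exact h2 w h6
      · exact absurd ⟨h5, h6⟩ h4
  have := Complex.norm_le_of_forall_mem_frontier_norm_le hUb hd hfr
    (subset_closure (show z ∈ U from ⟨hz, hz'⟩))
  rw [Complex.norm_exp] at this
  exact Real.exp_le_exp.mp this

lemma norm_le_of_rot (w : ℂ) (M : ℝ) (h : ∀ e : ℂ, ‖e‖ = 1 → (e * w).re ≤ M) : ‖w‖ ≤ M := by
  by_cases hw : w = 0
  · rw [hw, norm_zero]
    have h1 := h 1 (by simp)
    have h2 := h (-1) (by simp)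
    rw [hw] at h1
    simpa using h1
  · have hn : ‖w‖ ≠ 0 := by simpa using hw
    have h1 := h ((starRingEnd ℂ) w / (‖w‖ : ℂ)) (by
      rw [norm_div, RCLike.norm_conj, Complex.norm_real, norm_norm, div_self hn])
    have h2 : (starRingEnd ℂ) w / (‖w‖ : ℂ) * w = ((‖w‖ : ℝ) : ℂ) := by
      rw [div_mul_eq_mul_div, mul_comm, Complex.mul_conj, Complex.normSq_eq_norm_sq]
      push_cast
      field_simp
    rw [h2, Complex.ofReal_re] at h1
    exact h1

lemma psi_diff (χ : ℂ → ℂ) (hχ : DifferentiableOn ℂ χ (ball 0 1)) :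
    DifferentiableOn ℂ (fun z : ℂ => z⁻¹ + χ z) (ball 0 1 \ {0}) := by
  apply DifferentiableOn.add
  · intro z hz
    exact (differentiableAt_inv hz.2).differentiableWithinAt
  · exact hχ.mono sdiff_subset

/-- the main inequality for small `r` -/
lemma main_ineq (χ : ℂ → ℂ) (hχ : DifferentiableOn ℂ χ (ball 0 1)) (h0 : χ 0 = 0)
    (hinj : InjOn (fun z : ℂ => z⁻¹ + χ z) (ball 0 1 \ {0})) (R : ℝ) (hR0 : 0 < R) (hR : R < 1) :
    ∃ C : ℝ, 0 ≤ C ∧ ∀ᶠ r : ℝ in 𝓝[>] 0,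
      (1 - ‖deriv χ 0‖ ^ 2 * r ^ 4) * ((r ^ 2)⁻¹ - (R ^ 2)⁻¹ +
        ‖deriv χ 0‖ ^ 2 * (R ^ 2 - r ^ 2)) ≤ (1 / r + C * r ^ 2) ^ 2 := by
  have hp := Real.pi_pos
  set b : ℂ := deriv χ 0 with hb
  set ψ : ℂ → ℂ := fun z : ℂ => z⁻¹ + χ z with hψ
  obtain ⟨C0, hC0, hC0'⟩ := small_circle χ hχ h0
  have hψd := psi_diff χ hχ
  have hsph : sphere (0:ℂ) R ⊆ ball 0 1 \ {0} := by
    intro z hz
    rw [mem_sphere_zero_iff_norm] at hz
    refine ⟨by rw [mem_ball_zero_iff, hz]; exact hR, ?_⟩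
    intro h
    rw [mem_singleton_iff] at h
    rw [h, norm_zero] at hz
    linarith
  obtain ⟨MR, hMR⟩ := (isCompact_sphere (0:ℂ) R).exists_bound_of_continuousOn
    (hψd.continuousOn.mono hsph)
  set C : ℝ := C0 + ‖b‖ ^ 2 + ‖b‖ * C0 with hC
  have hCn : 0 ≤ C := by positivity
  refine ⟨C, hCn, ?_⟩
  have ev1 : ∀ᶠ r : ℝ in 𝓝[>] 0, r < min (R / 2) (1 / 2) :=
    (tendsto_nhdsWithin_of_tendsto_nhds tendsto_id).eventually_lt_const (by positivity)
  have ev2 : ∀ᶠ r : ℝ in 𝓝[>] 0, (1 + ‖b‖) * |MR| ≤ r⁻¹ :=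
    tendsto_inv_nhdsGT_zero.eventually_ge_atTop _
  have ev3 : ∀ᶠ r : ℝ in 𝓝[>] 0, ‖b‖ * r ^ 2 < 1 := by
    have : Tendsto (fun r : ℝ => ‖b‖ * r ^ 2) (𝓝[>] 0) (𝓝 (‖b‖ * 0 ^ 2)) :=
      tendsto_nhdsWithin_of_tendsto_nhds (Continuous.tendsto (by fun_prop) 0)
    exact this.eventually_lt_const (by simp)
  filter_upwards [ev1, ev2, ev3, self_mem_nhdsWithin] with r hr1 hr2 hr3 hr0
  rw [Set.mem_Ioi] at hr0
  have hr4 : r < R := by have := min_le_left (R/2) (1/2 : ℝ); linarith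
  have hr5 : r ≤ 1 / 2 := by have := min_le_right (R/2) (1/2 : ℝ); linarith
  have hr6 : r ^ 2 ≤ 1 := by nlinarith
  set κ : ℂ := b * (r ^ 2 : ℝ) with hκ
  have hκn : ‖κ‖ = ‖b‖ * r ^ 2 := by
    rw [hκ, norm_mul, Complex.norm_real, Real.norm_of_nonneg (by positivity)]
  have hκ1 : ‖κ‖ < 1 := by rw [hκn]; exact hr3
  set M : ℝ := 1 / r + C * r ^ 2 with hM
  have hMn : 0 ≤ M := by positivity
  -- boundary bounds
  have hb1 : ∀ z : ℂ, ‖z‖ = r → ‖LL κ (ψ z)‖ ≤ M := by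
    intro z hz
    have h1 := hC0' z (by rw [hz]; exact hr5)
    rw [hz] at h1
    have h2 := LL_small b (χ z - b * z) z r C0 hr0 (by linarith) hz h1
    have h3 : z⁻¹ + b * z + (χ z - b * z) = ψ z := by rw [hψ]; ring
    rw [h3] at h2
    exact h2
  have hb2 : ∀ z : ℂ, ‖z‖ = R → ‖LL κ (ψ z)‖ ≤ M := by
    intro z hz
    have h1 := hMR z (by rw [mem_sphere_zero_iff_norm]; exact hz)
    rw [LL_apply]
    refine (norm_sub_le _ _).trans ?_
    rw [norm_mul, RCLike.norm_conj, hκn]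
    have h2 : ‖ψ z‖ ≤ |MR| := h1.trans (le_abs_self _)
    have h3 : ‖b‖ * r ^ 2 * ‖ψ z‖ ≤ ‖b‖ * |MR| := by
      calc ‖b‖ * r ^ 2 * ‖ψ z‖ ≤ ‖b‖ * 1 * |MR| := by gcongr
        _ = _ := by ring
    have h4 : r⁻¹ ≤ M := by
      rw [hM, one_div]
      have : 0 ≤ C * r ^ 2 := by positivity
      linarith
    nlinarith
  -- maximum principle
  have hin : ∀ z : ℂ, r < ‖z‖ → ‖z‖ < R → ‖LL κ (ψ z)‖ ≤ M := by
    intro z hz1 hz2
    apply norm_le_of_rot
    intro e he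
    have hre : ∀ w : ℂ, (e * LL κ w).re = ((e - (starRingEnd ℂ) (e * κ)) * w).re := by
      intro w
      rw [LL_apply]
      simp only [map_mul, Complex.mul_re, Complex.sub_re, Complex.sub_im, Complex.mul_im,
        Complex.conj_re, Complex.conj_im]
      ring
    have hle : ∀ w : ℂ, ‖LL κ w‖ ≤ M → ((e - (starRingEnd ℂ) (e * κ)) * w).re ≤ M := by
      intro w hw
      rw [← hre]
      refine (Complex.re_le_norm _).trans ?_
      rw [norm_mul, he, one_mul]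
      exact hw
    rw [hre]
    exact max_princ (fun z => (e - (starRingEnd ℂ) (e * κ)) * ψ z)
      ((differentiableOn_const _).mul hψd) r R M hr0 hR
      (fun w hw => hle _ (hb1 w hw)) (fun w hw => hle _ (hb2 w hw)) z hz1 hz2
  have hup := area_upper κ hκ1 M hMn
    (ψ '' {z : ℂ | Real.exp (Real.log r) < ‖z‖ ∧ ‖z‖ < Real.exp (Real.log R)}) (by
      rintro _ ⟨z, ⟨hz1, hz2⟩, rfl⟩
      rw [Real.exp_log hr0] at hz1
      rw [Real.exp_log hR0] at hz2
      exact hin z hz1 hz2)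
  have hlow := area_lower χ hχ hinj (Real.log r) (Real.log R) (Real.log_le_log hr0 hr4.le)
    (Real.log_neg hR0 hR)
  have h5 := hlow.trans hup
  have hden : 0 < 1 - ‖κ‖ ^ 2 := by nlinarith [norm_nonneg κ]
  rw [ENNReal.ofReal_le_ofReal_iff (by positivity)] at h5
  have e1 : ∀ x : ℝ, 0 < x → Real.exp (-2 * Real.log x) = (x ^ 2)⁻¹ := by
    intro x hx
    have : (-2 : ℝ) * Real.log x = Real.log ((x ^ 2)⁻¹) := by
      rw [Real.log_inv, Real.log_pow]; push_cast; ring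
    rw [this, Real.exp_log (by positivity)]
  have e2 : ∀ x : ℝ, 0 < x → Real.exp (2 * Real.log x) = x ^ 2 := by
    intro x hx
    have : (2 : ℝ) * Real.log x = Real.log (x ^ 2) := by
      rw [Real.log_pow]; push_cast; ring
    rw [this, Real.exp_log (by positivity)]
  rw [e1 r hr0, e1 R hR0, e2 r hr0, e2 R hR0, le_div_iff₀ hden, hκn] at h5
  have h6 : Real.pi * ((1 - ‖b‖ ^ 2 * r ^ 4) * ((r ^ 2)⁻¹ - (R ^ 2)⁻¹ +
        ‖b‖ ^ 2 * (R ^ 2 - r ^ 2))) ≤ Real.pi * M ^ 2 := by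
    refine le_trans (le_of_eq ?_) h5
    rw [← hb]
    ring
  exact le_of_mul_le_mul_left h6 hp

lemma bound_R (χ : ℂ → ℂ) (hχ : DifferentiableOn ℂ χ (ball 0 1)) (h0 : χ 0 = 0)
    (hinj : InjOn (fun z : ℂ => z⁻¹ + χ z) (ball 0 1 \ {0})) (R : ℝ) (hR0 : 0 < R) (hR : R < 1) :
    ‖deriv χ 0‖ ^ 2 * R ^ 4 ≤ 1 := by
  obtain ⟨C, hC, hev⟩ := main_ineq χ hχ h0 hinj R hR0 hR
  set β : ℝ := ‖deriv χ 0‖ ^ 2 with hβ
  set K : ℝ := β * R ^ 2 - (R ^ 2)⁻¹ with hK
  have hev2 : ∀ᶠ r : ℝ in 𝓝[>] 0,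
      K ≤ 2 * C * r + C ^ 2 * r ^ 4 + 2 * β * r ^ 2 + β * r ^ 4 * (K - β * r ^ 2) := by
    filter_upwards [hev, self_mem_nhdsWithin] with r hr hr0
    rw [Set.mem_Ioi] at hr0
    have e1 : (1 - β * r ^ 4) * ((r ^ 2)⁻¹ - (R ^ 2)⁻¹ + β * (R ^ 2 - r ^ 2))
        = (r ^ 2)⁻¹ + K - 2 * β * r ^ 2 - β * r ^ 4 * (K - β * r ^ 2) := by
      have : r ^ 4 * (r ^ 2)⁻¹ = r ^ 2 := by field_simp
      rw [hK]
      linear_combination (-β) * this
    have e2 : (1 / r + C * r ^ 2) ^ 2 = (r ^ 2)⁻¹ + 2 * C * r + C ^ 2 * r ^ 4 := by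
      field_simp
      ring
    rw [e1, e2] at hr
    linarith
  have htend : Tendsto (fun r : ℝ => 2 * C * r + C ^ 2 * r ^ 4 + 2 * β * r ^ 2 +
      β * r ^ 4 * (K - β * r ^ 2)) (𝓝[>] 0) (𝓝 (2 * C * 0 + C ^ 2 * 0 ^ 4 + 2 * β * 0 ^ 2 +
      β * 0 ^ 4 * (K - β * 0 ^ 2))) :=
    tendsto_nhdsWithin_of_tendsto_nhds (Continuous.tendsto (by fun_prop) 0)
  have hK0 : K ≤ 0 := by
    have := ge_of_tendsto htend hev2
    simpa using this
  have hR2 : 0 < R ^ 2 := by positivity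
  have h3 : (R ^ 2)⁻¹ * R ^ 2 = 1 := by field_simp
  nlinarith

lemma bound_aux (χ : ℂ → ℂ) (hχ : DifferentiableOn ℂ χ (ball 0 1)) (h0 : χ 0 = 0)
    (hinj : InjOn (fun z : ℂ => z⁻¹ + χ z) (ball 0 1 \ {0})) : ‖deriv χ 0‖ ≤ 1 := by
  have h1 : Tendsto (fun R : ℝ => ‖deriv χ 0‖ ^ 2 * R ^ 4) (𝓝[<] 1)
      (𝓝 (‖deriv χ 0‖ ^ 2 * 1 ^ 4)) :=
    tendsto_nhdsWithin_of_tendsto_nhds (Continuous.tendsto (by fun_prop) 1)
  have h2 : ∀ᶠ R : ℝ in 𝓝[<] 1, ‖deriv χ 0‖ ^ 2 * R ^ 4 ≤ 1 := by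
    filter_upwards [Ioo_mem_nhdsLT (show (0:ℝ) < 1 by norm_num)] with R hR
    exact bound_R χ hχ h0 hinj R hR.1 hR.2
  have h3 := le_of_tendsto h1 h2
  have h4 : ‖deriv χ 0‖ ^ 2 ≤ 1 := by simpa using h3
  nlinarith [norm_nonneg (deriv χ 0)]

end K2

/-- [K2] The area theorem. -/
theorem prfAreaOut : AreaOut := by
  intro χ hχ hinj
  have h1 : DifferentiableOn ℂ (fun z => χ z - χ 0) (ball 0 1) := hχ.sub_const _
  have h2 := K2.bound_aux (fun z => χ z - χ 0) h1 (by simp) (by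
    intro z hz w hw h
    apply hinj hz hw
    simp only at h ⊢
    linear_combination h)
  rwa [deriv_sub_const] at h2

end Pool.Agent.MultS
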