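import Pool.Agent.Work.MP_b17785_an.Bd.B01
import Pool.Agent.Work.MP_b17785_an.Bd.B02
import Pool.Agent.Work.MP_b17785_an.Bd.B04
import Pool.Agent.Work.MP_b17785_an.C2
import Pool.Agent.Work.MP_b17785_an.D5
import Pool.Agent.Work.MP_b17785_an.Bd.B05
import Pool.Agent.Work.MP_b17785_an.K2

/-!
# Coefficient multipliers of the class S: everything together
-/

set_option autoImplicit false

open Complex Metric Set Filter Topology MeasureTheory Finset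

namespace Pool.Agent.MultS

theorem testQAll : TestQ := prfTestQ prfStrip prfPowCoef

theorem repAll : Rep := prfRep prfSer (prfSerJ prfSer)

theorem finalAll :
    (∀ lam : ℕ → ℂ, Lit Sc lam →
      (∃ x : ℂ, ‖x‖ = 1 ∧ ∀ n : ℕ, 1 ≤ n → lam n = x ^ (n - 1)) ∨
      ((∃ C : ℝ, ∀ z ∈ ball (0 : ℂ) 1, Summable (fun n : ℕ => (n : ℂ) ^ 2 * lam n * z ^ n) ∧
        ‖∑' n : ℕ, (n : ℂ) ^ 2 * lam n * z ^ n‖ ≤ C) ∧
        Summable (fun n : ℕ => (n : ℝ) ^ 4 * ‖lam n‖ ^ 2))) ∧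
    (∀ lam : ℕ → ℂ, Lit S0 lam →
      (∃ c x : ℂ, c ≠ 0 ∧ ‖x‖ = 1 ∧ ∀ n : ℕ, 1 ≤ n → lam n = c * x ^ (n - 1)) ∨
      ((∃ C : ℝ, ∀ z ∈ ball (0 : ℂ) 1, Summable (fun n : ℕ => (n : ℂ) ^ 2 * lam n * z ^ n) ∧
        ‖∑' n : ℕ, (n : ℂ) ^ 2 * lam n * z ^ n‖ ≤ C) ∧
        Summable (fun n : ℕ => (n : ℝ) ^ 4 * ‖lam n‖ ^ 2))) ∧
    (∀ lam : ℕ → ℝ, (∀ n, 0 ≤ lam n) → Lit Sc (fun n => (lam n : ℂ)) →
      (∀ n : ℕ, 1 ≤ n → lam n = 1) ∨ Summable (fun n : ℕ => (n : ℝ) ^ 2 * lam n)) :=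
  final prfDerNe (prfGenEx testQAll) (prfConv prfTestA prfSer)
  (prfMemQ testQAll prfSer)
  (prfNonN (prfTestN prfStrip prfDerNe prfPowCoef) prfSer (prfGenEx testQAll) (prfSerJ prfSer))
  prfRot prfPPan (prfJul prfHar) (prfJLim prfHar) (prfJOne prfHar) (prfUnif prfHar)
  (prfDom prfHar) prfPsi (prfDLim (prfRepX repAll) prfBeta) prfDBlow prfNonInj prfGrow prfRotOne
  (prfLow repAll (prfHDer prfSer)) (prfStart repAll) (prfClimb prfPoly) prfLitMult prfLitZero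
  (prfFin2 (prfSerJ prfSer)) prfPars prfNonneg

theorem growthAll : Growth :=
  prfGrowth (prfDist (prfBieb prfSqrtT prfAreaOut))

theorem littAll : Litt := prfLitt prfSqrtT (prfMeanSq growthAll (prfAreaIn prfBess))

theorem suffAll : Suff := prfSuff littAll

end Pool.Agent.MultS
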