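import Pool.Agent.Work.MP_b17785_an.Nbhd

/-!
# Coefficient multipliers of the class S: the sharp order (test on the Koebe function)
-/

set_option autoImplicit false

open Complex Metric Set Filter Topology Finset

namespace Pool.Agent.MultS

theorem one_sub_ne {z : ℂ} (hz : z ∈ ball (0 : ℂ) 1) : 1 - z ≠ 0 := by
  intro h
  have h1 : z = 1 := by linear_combination -h
  rw [h1] at hz
  simp at hz

theorem koebe_hasDerivAt {z : ℂ} (hz : z ∈ ball (0 : ℂ) 1) :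
    HasDerivAt (fun z : ℂ => z / (1 - z) ^ 2) ((1 + z) / (1 - z) ^ 3) z := by
  have hne := one_sub_ne hz
  have h2 : HasDerivAt (fun z : ℂ => 1 - z) (-1) z := by
    simpa using (hasDerivAt_id z).const_sub (1 : ℂ)
  refine ((hasDerivAt_id z).div (h2.pow 2) (pow_ne_zero 2 hne)).congr_deriv ?_
  simp only [Pi.pow_apply, id]
  push_cast
  field_simp
  ring

theorem sc_koebe : Sc (fun z : ℂ => z / (1 - z) ^ 2) := by
  refine ⟨fun z hz => (koebe_hasDerivAt hz).differentiableAt.differentiableWithinAt, ?_, by simp, ?_⟩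
  · intro z hz w hw hzw
    have hz1 := one_sub_ne hz
    have hw1 := one_sub_ne hw
    have h1 : z / (1 - z) ^ 2 = w / (1 - w) ^ 2 := hzw
    rw [div_eq_div_iff (pow_ne_zero 2 hz1) (pow_ne_zero 2 hw1)] at h1
    have h2 : (z - w) * (1 - z * w) = 0 := by linear_combination h1
    rcases mul_eq_zero.1 h2 with h | h
    · exact sub_eq_zero.1 h
    · exfalso
      have hz3 := mem_ball_zero_iff.1 hz
      have hw3 := mem_ball_zero_iff.1 hw
      have : ‖z * w‖ = 1 := by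
        have : z * w = 1 := by linear_combination -h
        rw [this, norm_one]
      rw [norm_mul] at this
      nlinarith [norm_nonneg z, norm_nonneg w]
  · rw [(koebe_hasDerivAt (mem_ball_self one_pos)).deriv]
    simp

theorem tc_koebe (n : ℕ) : tc (fun z : ℂ => z / (1 - z) ^ 2) n = n := by
  apply tc_of_hasSum
  intro z hz
  exact hasSum_coe_mul_geometric_of_norm_lt_one (mem_ball_zero_iff.1 hz)

theorem tc_deriv (g : ℂ → ℂ) (n : ℕ) : tc (deriv g) n = (n + 1) * tc g (n + 1) := by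
  unfold tc
  rw [iteratedDeriv_succ', Nat.factorial_succ]
  have : (n.factorial : ℂ) ≠ 0 := by exact_mod_cast n.factorial_ne_zero
  have h2 : ((n : ℂ) + 1) ≠ 0 := by exact_mod_cast n.succ_ne_zero
  push_cast
  field_simp

theorem hasSum_sq {x : ℂ} (hx : x ∈ ball (0 : ℂ) 1) :
    HasSum (fun n : ℕ => ((n : ℂ) + 1) ^ 2 * x ^ n) ((1 + x) / (1 - x) ^ 3) := by
  have h1 := hasSum_tc (sc_koebe.1.deriv isOpen_ball) hx
  rw [(koebe_hasDerivAt hx).deriv] at h1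
  refine h1.congr_fun fun n => ?_
  rw [tc_deriv, tc_koebe]
  push_cast
  ring

theorem nbhdC1 {r : ℝ} {nu : ℕ → ℝ} {g : ℂ → ℂ} (hS : Sc g)
    (hgs : ∀ z ∈ ball (0 : ℂ) 1, HasSum (fun n : ℕ =>
      (((r : ℂ) ^ n + (-1) ^ (n + 1) * nu (n + 1)) * ((n : ℂ) + 1)) * z ^ (n + 1)) (g z)) :
    ∀ z ∈ ball (0 : ℂ) 1, HasSum (fun n : ℕ =>
      ((n : ℂ) + 1) ^ 2 * ((r : ℂ) ^ n + (-1) ^ (n + 1) * nu (n + 1)) * z ^ n) (deriv g z) := by
  have htc : ∀ n : ℕ, tc g (n + 1) =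
      ((r : ℂ) ^ n + (-1) ^ (n + 1) * nu (n + 1)) * ((n : ℂ) + 1) := by
    intro n
    have h := tc_of_hasSum_succ
      (c := fun m => ((r : ℂ) ^ (m - 1) + (-1) ^ m * nu m) * m) (G := g) (fun z hz =>
        (hgs z hz).congr_fun fun n => by
          simp only [Nat.add_sub_cancel]
          push_cast
          ring) (n + 1) (by omega)
    rw [h]
    simp only [Nat.add_sub_cancel]
    push_cast
    ring
  intro z hz
  refine (hasSum_tc (hS.1.deriv isOpen_ball) hz).congr_fun fun n => ?_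
  rw [tc_deriv, htc n]
  ring

theorem nbhdC2 {r : ℝ} (hr0 : 0 ≤ r) (hr1 : r < 1) {nu : ℕ → ℝ} {g : ℂ → ℂ}
    (hder : ∀ z ∈ ball (0 : ℂ) 1, HasSum (fun n : ℕ =>
      ((n : ℂ) + 1) ^ 2 * ((r : ℂ) ^ n + (-1) ^ (n + 1) * nu (n + 1)) * z ^ n) (deriv g z))
    (hmem : ∀ ρ : ℝ, 0 ≤ ρ → ρ < 1 → (-(ρ : ℂ)) ∈ ball (0 : ℂ) 1) :
    ∀ ρ : ℝ, 0 ≤ ρ → ρ < 1 → HasSum (fun n : ℕ =>
      (((n : ℝ) + 1) ^ 2 * nu (n + 1) * ρ ^ n : ℝ))
      ((1 - r * ρ) / (1 + r * ρ) ^ 3 - (deriv g (-(ρ : ℂ))).re) ∧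
      (deriv g (-(ρ : ℂ))).im = 0 := by
  intro ρ h0 hρ1
  have hx : (-((r * ρ : ℝ) : ℂ)) ∈ ball (0 : ℂ) 1 := by
    apply hmem _ (mul_nonneg hr0 h0)
    nlinarith
  have h2 := (hasSum_sq hx).sub (hder _ (hmem ρ h0 hρ1))
  have h3 : (fun n : ℕ => ((n : ℂ) + 1) ^ 2 * (-((r * ρ : ℝ) : ℂ)) ^ n -
      ((n : ℂ) + 1) ^ 2 * ((r : ℂ) ^ n + (-1) ^ (n + 1) * nu (n + 1)) * (-(ρ : ℂ)) ^ n) =
      fun n : ℕ => ((((n : ℝ) + 1) ^ 2 * nu (n + 1) * ρ ^ n : ℝ) : ℂ) := by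
    funext n
    have e1 : (-((r * ρ : ℝ) : ℂ)) ^ n = (-1) ^ n * ((r : ℂ) ^ n * (ρ : ℂ) ^ n) := by
      rw [neg_pow]; push_cast; rw [mul_pow]
    have e2 : (-(ρ : ℂ)) ^ n = (-1) ^ n * (ρ : ℂ) ^ n := by rw [neg_pow]
    have e3 : ((-1 : ℂ) ^ n) * (-1) ^ n = 1 := by rw [← mul_pow]; simp
    rw [e1, e2, pow_succ]
    push_cast
    linear_combination (((n : ℂ) + 1) ^ 2 * nu (n + 1) * (ρ : ℂ) ^ n) * e3
  rw [h3] at h2
  have h4 : (1 + -((r * ρ : ℝ) : ℂ)) / (1 - -((r * ρ : ℝ) : ℂ)) ^ 3 =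
      (((1 - r * ρ) / (1 + r * ρ) ^ 3 : ℝ) : ℂ) := by
    push_cast
    ring
  rw [h4] at h2
  have h5 := Complex.hasSum_re h2
  have h6 := Complex.hasSum_im h2
  simp only [ofReal_re, sub_re] at h5
  simp only [ofReal_im, sub_im, zero_sub] at h6
  refine ⟨h5, ?_⟩
  have h7 := h6.unique hasSum_zero
  linarith

theorem nbhdC {r : ℝ} (hr0 : 0 ≤ r) (hr1 : r < 1) {nu : ℕ → ℝ} (hnu : ∀ n, 0 ≤ nu n)
    (hM : Lit Sc (fun n => (r : ℂ) ^ (n - 1) + (-1) ^ n * nu n)) :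
    Summable (fun n : ℕ => (n : ℝ) ^ 2 * nu n) ∧
      ∑' n : ℕ, (n : ℝ) ^ 2 * nu n ≤ (1 - r) / (1 + r) ^ 3 := by
  obtain ⟨g, hS, hgs⟩ : ∃ g : ℂ → ℂ, Sc g ∧ ∀ z ∈ ball (0 : ℂ) 1, HasSum (fun n : ℕ =>
      (((r : ℂ) ^ n + (-1) ^ (n + 1) * nu (n + 1)) * ((n : ℂ) + 1)) * z ^ (n + 1)) (g z) := by
    obtain ⟨hs0, hS⟩ := hM _ sc_koebe
    refine ⟨_, hS, fun z hz => ?_⟩
    refine (hs0 z hz).hasSum.congr_fun fun n => ?_
    simp only [tc_koebe, Nat.add_sub_cancel]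
    push_cast
    ring
  have hder := nbhdC1 hS hgs
  -- the value at `-ρ`
  have hmem : ∀ ρ : ℝ, 0 ≤ ρ → ρ < 1 → (-(ρ : ℂ)) ∈ ball (0 : ℂ) 1 := by
    intro ρ h0 h1
    rw [mem_ball_zero_iff, norm_neg, norm_real, Real.norm_of_nonneg h0]
    exact h1
  have hP := nbhdC2 hr0 hr1 hder hmem
  -- positivity
  have hne : ∀ ρ : ℝ, 0 ≤ ρ → ρ < 1 → (deriv g (-(ρ : ℂ))).re ≠ 0 := by
    intro ρ h0 hρ1 h
    have h2 := prfDerNe _ g isOpen_ball hS.1 hS.2.1 _ (hmem ρ h0 hρ1)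
    apply h2
    exact Complex.ext h (hP ρ h0 hρ1).2
  have hpos : ∀ ρ : ℝ, 0 ≤ ρ → ρ < 1 → 0 < (deriv g (-(ρ : ℂ))).re := by
    intro ρ h0 hρ1
    by_contra hneg
    push Not at hneg
    have hcont : ContinuousOn (fun s : ℝ => (deriv g (-(s : ℂ))).re) (Set.Icc 0 ρ) := by
      have h2 : ContinuousOn (deriv g) (ball 0 1) := (hS.1.deriv isOpen_ball).continuousOn
      refine Complex.continuous_re.comp_continuousOn (h2.comp ?_ ?_)
      · exact (Complex.continuous_ofReal.neg).continuousOn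
      · intro s hs
        exact hmem s hs.1 (hs.2.trans_lt hρ1)
    have h3 : (0 : ℝ) ∈ Set.Icc ((fun s : ℝ => (deriv g (-(s : ℂ))).re) ρ)
        ((fun s : ℝ => (deriv g (-(s : ℂ))).re) 0) := by
      refine ⟨hneg, ?_⟩
      simp [hS.2.2.2]
    obtain ⟨s, hs, hs0⟩ := intermediate_value_Icc' h0 hcont h3
    exact hne s hs.1 (hs.2.trans_lt hρ1) hs0
  -- the bound for partial sums
  have hpart : ∀ N : ℕ, ∑ n ∈ range N, ((n : ℝ) + 1) ^ 2 * nu (n + 1) ≤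
      (1 - r) / (1 + r) ^ 3 := by
    intro N
    have h2 : ∀ᶠ ρ : ℝ in 𝓝[<] 1, ∑ n ∈ range N, ((n : ℝ) + 1) ^ 2 * nu (n + 1) * ρ ^ n ≤
        (1 - r * ρ) / (1 + r * ρ) ^ 3 := by
      have h3 : ∀ᶠ ρ : ℝ in 𝓝[<] 1, ρ ∈ Set.Ioo (0 : ℝ) 1 :=
        Ioo_mem_nhdsLT one_pos
      filter_upwards [h3] with ρ hρ
      have h4 := (hP ρ hρ.1.le hρ.2).1
      have h5 := sum_le_hasSum (range N) (fun n _ => by
        have := hnu (n + 1)
        have := hρ.1.le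
        positivity) h4
      have h6 := hpos ρ hρ.1.le hρ.2
      linarith
    have h7 : Tendsto (fun ρ : ℝ => ∑ n ∈ range N, ((n : ℝ) + 1) ^ 2 * nu (n + 1) * ρ ^ n)
        (𝓝[<] 1) (𝓝 (∑ n ∈ range N, ((n : ℝ) + 1) ^ 2 * nu (n + 1) * (1 : ℝ) ^ n)) := by
      apply Tendsto.mono_left _ nhdsWithin_le_nhds
      apply Continuous.tendsto
      fun_prop
    have h8 : Tendsto (fun ρ : ℝ => (1 - r * ρ) / (1 + r * ρ) ^ 3)
        (𝓝[<] 1) (𝓝 ((1 - r * 1) / (1 + r * 1) ^ 3)) := by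
      apply Tendsto.mono_left _ nhdsWithin_le_nhds
      apply ContinuousAt.tendsto
      apply ContinuousAt.div (by fun_prop) (by fun_prop)
      positivity
    have h9 := le_of_tendsto_of_tendsto h7 h8 h2
    simpa using h9
  have hs1 : Summable (fun n : ℕ => ((n : ℝ) + 1) ^ 2 * nu (n + 1)) :=
    summable_of_sum_range_le (fun n => mul_nonneg (by positivity) (hnu _)) hpart
  have hs : Summable (fun n : ℕ => (n : ℝ) ^ 2 * nu n) := by
    rw [← summable_nat_add_iff 1]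
    refine hs1.congr fun n => ?_
    push_cast
    ring
  refine ⟨hs, ?_⟩
  have hts : ∑' n : ℕ, (n : ℝ) ^ 2 * nu n = ∑' n : ℕ, ((n : ℝ) + 1) ^ 2 * nu (n + 1) := by
    rw [hs.tsum_eq_zero_add]
    simp
  rw [hts]
  exact Real.tsum_le_of_sum_range_le (fun n => mul_nonneg (by positivity) (hnu _)) hpart

/-- The converse of `nbhdC`, up to the constant in the coefficient bound. -/
theorem nbhdD (hG : Gol) {C : ℝ} (hC : CB C) {r : ℝ} (hr0 : 0 ≤ r) (hr1 : r < 1) {nu : ℕ → ℝ}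
    (hnu : ∀ n, 0 ≤ nu n) (h1 : nu 1 = 0) (hs : Summable (fun n : ℕ => (n : ℝ) ^ 2 * nu n))
    (hle : C * ∑' n : ℕ, (n : ℝ) ^ 2 * nu n ≤ (1 - r) / (1 + r) ^ 3) :
    Lit Sc (fun n => (r : ℂ) ^ (n - 1) + (-1) ^ n * nu n) := by
  have hnorm : ∀ n : ℕ, ‖(-1 : ℂ) ^ n * nu n‖ = nu n := by
    intro n
    rw [norm_mul, norm_pow, norm_neg, norm_one, one_pow, one_mul, norm_real,
      Real.norm_of_nonneg (hnu n)]
  have hone : Lit Sc (fun n => (1 : ℂ) ^ (n - 1)) := lit_rot norm_one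
  have := nbhdA hG hC hone hr0 hr1 (eta := fun n => (-1 : ℂ) ^ n * nu n) (by simp [h1])
    (by simpa only [hnorm] using hs) (by simpa only [hnorm] using hle)
  simpa only [one_pow, mul_one] using this

end Pool.Agent.MultS
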