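import Mathlib

/-!
# Coefficient multipliers of the class S: definitions
-/

set_option autoImplicit false

open Complex Metric Set Filter Topology MeasureTheory Finset

namespace Pool.Agent.MultS

/-- The class `S`: holomorphic and injective in the unit disk, `f 0 = 0`, `f' 0 = 1`. -/
def Sc (f : ℂ → ℂ) : Prop :=
  DifferentiableOn ℂ f (ball 0 1) ∧ InjOn f (ball 0 1) ∧ f 0 = 0 ∧ deriv f 0 = 1

/-- The `n`-th Taylor coefficient of `f` at `0`. -/
noncomputable def tc (f : ℂ → ℂ) (n : ℕ) : ℂ := iteratedDeriv n f 0 / (n.factorial : ℂ)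

/-- `lam` is a coefficient multiplier of the class `S` (working form: some member `g` of `S`
has the coefficients `lam n * a n`). -/
def IsMult (lam : ℕ → ℂ) : Prop :=
  ∀ f : ℂ → ℂ, Sc f → ∃ g : ℂ → ℂ, Sc g ∧ ∀ n : ℕ, 1 ≤ n → tc g n = lam n * tc f n

/-- `h` is the generating function of `lam` (and belongs to `S`). -/
def Gen (lam : ℕ → ℂ) (h : ℂ → ℂ) : Prop := Sc h ∧ ∀ n : ℕ, 1 ≤ n → tc h n = lam n

/-- The Taylor coefficients of `(1 - z) ^ (q - 1)`, i.e. `(1-q)_k / k!`. -/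
noncomputable def cf (q : ℂ) (k : ℕ) : ℂ :=
  (∏ i ∈ range k, (1 - q + (i : ℂ))) / (k.factorial : ℂ)

/-- `J(q,z) = ∑ lam (k+1) (1-q)_k / k! z^k`, the derivative of the Hadamard product of
`∑ lam n z^n` and `(1 - (1 - z)^q) / q`. -/
noncomputable def JJ (lam : ℕ → ℂ) (q z : ℂ) : ℂ := ∑' k : ℕ, lam (k + 1) * cf q k * z ^ k

/-- `F = z h'`. -/
noncomputable def FF (h : ℂ → ℂ) (z : ℂ) : ℂ := z * deriv h z

/-- `P = 1 + z h'' / h'`. -/
noncomputable def PP (h : ℂ → ℂ) (z : ℂ) : ℂ := 1 + z * deriv (deriv h) z / deriv h z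

/-- The polynomial in `σ` which is zero free in the sector `|arg σ| ≤ π/3`. -/
noncomputable def NN (lam : ℕ → ℂ) (p s : ℝ) (σ z : ℂ) : ℂ :=
  ∑ j ∈ range 7, (Nat.choose 6 j : ℂ) * σ ^ (6 - j) *
    (((s - j * ((s - p) / 6) : ℝ) : ℂ) * JJ lam ((j * ((s - p) / 6) - s : ℝ) : ℂ) z)

end Pool.Agent.MultS
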