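import Pool.Agent.Work.MP_b17785_an.All

/-!
# Coefficient multipliers of the classes `S` and `S₀` of univalent functions: the dichotomy

A coefficient multiplier from `S` to `S` is a rotation `lam n = x ^ (n - 1)`, `‖x‖ = 1`, or else
`∑ n ^ 2 * lam n * z ^ n` is a bounded function in the unit disk; similarly for `S₀`.
-/

set_option autoImplicit false

open Metric Set

namespace Pool.Agent.Results.MP_b17785_an.MultiplierDichotomy

/-- The `n`-th Taylor coefficient of `f` at `0`. -/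
noncomputable def coeff (f : ℂ → ℂ) (n : ℕ) : ℂ := iteratedDeriv n f 0 / (n.factorial : ℂ)

/-- The class `S₀`: holomorphic and injective in the open unit disk, with `f 0 = 0`. -/
def ClassS0 (f : ℂ → ℂ) : Prop :=
  DifferentiableOn ℂ f (ball 0 1) ∧ InjOn f (ball 0 1) ∧ f 0 = 0

/-- The class `S`: holomorphic and injective in the open unit disk, `f 0 = 0`, `f' 0 = 1`. -/
def ClassS (f : ℂ → ℂ) : Prop :=
  DifferentiableOn ℂ f (ball 0 1) ∧ InjOn f (ball 0 1) ∧ f 0 = 0 ∧ deriv f 0 = 1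

/-- `lam` is a coefficient multiplier from the class `A` to itself: for every `f` in `A` the series
`∑_{n ≥ 1} lam n * a_n * z ^ n` (with `a_n` the Taylor coefficients of `f`) converges in the
unit disk and its sum belongs to `A`. (The value `lam 0` plays no role.) -/
def IsMultiplier (A : (ℂ → ℂ) → Prop) (lam : ℕ → ℂ) : Prop :=
  ∀ f : ℂ → ℂ, A f →
    (∀ z ∈ ball (0 : ℂ) 1, Summable (fun n : ℕ => lam (n + 1) * coeff f (n + 1) * z ^ (n + 1))) ∧
    A (fun z => ∑' n : ℕ, lam (n + 1) * coeff f (n + 1) * z ^ (n + 1))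

/-- `∑ n ^ 2 * lam n * z ^ n` converges in the open unit disk to a bounded function. -/
def BoundedSecond (lam : ℕ → ℂ) : Prop :=
  ∃ C : ℝ, ∀ z ∈ ball (0 : ℂ) 1, Summable (fun n : ℕ => (n : ℂ) ^ 2 * lam n * z ^ n) ∧
    ‖∑' n : ℕ, (n : ℂ) ^ 2 * lam n * z ^ n‖ ≤ C

/-- **Dichotomy for coefficient multipliers of univalent functions.** -/
theorem result (lam : ℕ → ℂ) :
    (IsMultiplier ClassS lam →
      (∃ x : ℂ, ‖x‖ = 1 ∧ ∀ n : ℕ, 1 ≤ n → lam n = x ^ (n - 1)) ∨ BoundedSecond lam) ∧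
    (IsMultiplier ClassS0 lam →
      (∃ c x : ℂ, c ≠ 0 ∧ ‖x‖ = 1 ∧ ∀ n : ℕ, 1 ≤ n → lam n = c * x ^ (n - 1)) ∨
        BoundedSecond lam) := by
  obtain ⟨h1, h2, -⟩ := Pool.Agent.MultS.finalAll
  refine ⟨fun h => ?_, fun h => ?_⟩
  · rcases h1 lam h with h | h
    · exact Or.inl h
    · exact Or.inr h.1
  · rcases h2 lam h with h | h
    · exact Or.inl h
    · exact Or.inr h.1

end Pool.Agent.Results.MP_b17785_an.MultiplierDichotomy
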