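import Pool.Agent.Work.MP_b17785_an.All

/-!
# Coefficient multipliers of the class S: neighbourhoods of dilated multipliers
-/

set_option autoImplicit false

open Complex Metric Set Filter Topology Finset

namespace Pool.Agent.MultS

/-- [N1] Goluzin's inequality. -/
def Gol : Prop :=
  ∀ f : ℂ → ℂ, Sc f → ∀ r : ℝ, 0 ≤ r → r < 1 → ∀ a b : ℂ, ‖a‖ ≤ r → ‖b‖ ≤ r →
    (1 - r) / (1 + r) ^ 3 * ‖a - b‖ ≤ ‖f a - f b‖

/-- The coefficient bound with the constant `C`. -/
def CB (C : ℝ) : Prop := ∀ f : ℂ → ℂ, Sc f → ∀ n : ℕ, 1 ≤ n → ‖tc f n‖ ≤ C * n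

theorem sc_id : Sc (fun z => z) :=
  ⟨differentiableOn_id, fun _ _ _ _ h => h, rfl, by simp⟩

theorem CB.one_le {C : ℝ} (h : CB C) : 1 ≤ C := by
  have := h _ sc_id 1 le_rfl
  rw [tc_one] at this
  simpa using this

theorem nbhdA (hG : Gol) {C : ℝ} (hC : CB C) {lam : ℕ → ℂ} (hlam : Lit Sc lam) {r : ℝ}
    (hr0 : 0 ≤ r) (hr1 : r < 1) {eta : ℕ → ℂ} (he1 : eta 1 = 0)
    (hs : Summable (fun n : ℕ => (n : ℝ) ^ 2 * ‖eta n‖))
    (hle : C * ∑' n : ℕ, (n : ℝ) ^ 2 * ‖eta n‖ ≤ (1 - r) / (1 + r) ^ 3) :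
    Lit Sc (fun n => (r : ℂ) ^ (n - 1) * lam n + eta n) := by
  have hC1 := hC.one_le
  intro f hf
  obtain ⟨hgs0, hgS⟩ := hlam f hf
  have hL' := hC f hf
  set b : ℕ → ℂ := fun n => lam (n + 1) * tc f (n + 1) with hb
  set d : ℕ → ℂ := fun n => eta (n + 1) * tc f (n + 1) with hd
  set g : ℂ → ℂ := fun z => ∑' n : ℕ, b n * z ^ (n + 1) with hg
  have hgs : ∀ z ∈ ball (0 : ℂ) 1, HasSum (fun n : ℕ => b n * z ^ (n + 1)) (g z) :=
    fun z hz => (hgs0 z hz).hasSum
  replace hgS : Sc g := hgS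
  clear_value g
  -- the first coefficient
  have hb0 : b 0 = 1 := by
    have h1 := tc_of_hasSum_succ (c := fun m => lam m * tc f m) (G := g) hgs 1 le_rfl
    rw [tc_one] at h1
    rw [hgS.2.2.2] at h1
    exact h1.symm
  have hd0 : d 0 = 0 := by simp [hd, he1]
  -- the dilated function
  set gr : ℂ → ℂ := fun z => if r = 0 then z else g (r * z) / r with hgr
  have hmaps : ∀ z ∈ ball (0 : ℂ) 1, (r : ℂ) * z ∈ ball (0 : ℂ) 1 ∧ ‖(r : ℂ) * z‖ ≤ r := by
    intro z hz
    have hz1 := mem_ball_zero_iff.1 hz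
    have h1 : ‖(r : ℂ) * z‖ ≤ r := by
      rw [norm_mul, norm_real, Real.norm_of_nonneg hr0]
      exact mul_le_of_le_one_right hr0 hz1.le
    exact ⟨mem_ball_zero_iff.2 (h1.trans_lt hr1), h1⟩
  have hgrs : ∀ z ∈ ball (0 : ℂ) 1, HasSum (fun n : ℕ => (r : ℂ) ^ n * b n * z ^ (n + 1))
      (gr z) := by
    intro z hz
    by_cases h0 : r = 0
    · simp only [hgr, h0, if_true]
      convert hasSum_single (f := fun n : ℕ => ((0 : ℝ) : ℂ) ^ n * b n * z ^ (n + 1)) 0 ?_ using 1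
      · simp [hb0]
      · intro n hn
        simp [hn]
    · simp only [hgr, h0, if_false]
      have hrc : (r : ℂ) ≠ 0 := by exact_mod_cast h0
      refine ((hgs _ (hmaps z hz).1).div_const (r : ℂ)).congr_fun fun n => ?_
      rw [mul_pow, pow_succ (r : ℂ) n, pow_succ z n]
      field_simp
  have hgrG : ∀ z ∈ ball (0 : ℂ) 1, ∀ w ∈ ball (0 : ℂ) 1,
      (1 - r) / (1 + r) ^ 3 * ‖z - w‖ ≤ ‖gr z - gr w‖ := by
    intro z hz w hw
    by_cases h0 : r = 0
    · simp [hgr, h0]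
    · simp only [hgr, h0, if_false]
      have hrp : 0 < r := lt_of_le_of_ne hr0 (Ne.symm h0)
      have h1 := hG g hgS r hr0 hr1 _ _ (hmaps z hz).2 (hmaps w hw).2
      rw [← sub_div, norm_div, norm_real, Real.norm_of_nonneg hr0, le_div_iff₀ hrp]
      rw [← mul_sub, norm_mul, norm_real, Real.norm_of_nonneg hr0] at h1
      linarith
  -- the perturbation
  have hdn : ∀ n : ℕ, ((n : ℝ) + 1) * ‖d n‖ ≤ C * (((n : ℝ) + 1) ^ 2 * ‖eta (n + 1)‖) := by
    intro n
    have := hL' (n + 1) (by omega)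
    rw [hd]
    simp only [norm_mul]
    push_cast at this
    have h3 : ‖eta (n + 1)‖ * ‖tc f (n + 1)‖ ≤ ‖eta (n + 1)‖ * (C * ((n : ℝ) + 1)) :=
      mul_le_mul_of_nonneg_left this (norm_nonneg _)
    have h4 := mul_le_mul_of_nonneg_left h3 (by positivity : (0 : ℝ) ≤ (n : ℝ) + 1)
    refine h4.trans (le_of_eq ?_)
    ring
  have hs1 : Summable (fun n : ℕ => ((n : ℝ) + 1) ^ 2 * ‖eta (n + 1)‖) := by
    have := (summable_nat_add_iff 1).2 hs
    refine this.congr fun n => ?_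
    push_cast
    ring
  have hts : ∑' n : ℕ, (n : ℝ) ^ 2 * ‖eta n‖ = ∑' n : ℕ, ((n : ℝ) + 1) ^ 2 * ‖eta (n + 1)‖ := by
    rw [hs.tsum_eq_zero_add]
    simp
  have hsd : Summable (fun n : ℕ => ((n : ℝ) + 1) * ‖d n‖) :=
    Summable.of_nonneg_of_le (fun n => by positivity) hdn (hs1.mul_left C)
  have hT : ∑' n : ℕ, ((n : ℝ) + 1) * ‖d n‖ ≤ (1 - r) / (1 + r) ^ 3 := by
    refine le_trans (hsd.tsum_le_tsum hdn (hs1.mul_left C)) ?_
    rw [tsum_mul_left, ← hts]
    exact hle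
  have hsn : Summable (fun n : ℕ => ‖d n‖) := by
    refine Summable.of_nonneg_of_le (fun n => norm_nonneg _) (fun n => ?_) hsd
    have : (0 : ℝ) ≤ n := n.cast_nonneg
    nlinarith [norm_nonneg (d n)]
  have hdz : ∀ z ∈ ball (0 : ℂ) 1, Summable (fun n : ℕ => d n * z ^ (n + 1)) := by
    intro z hz
    refine Summable.of_norm_bounded hsn fun n => ?_
    rw [norm_mul, norm_pow]
    have : ‖z‖ ≤ 1 := (mem_ball_zero_iff.1 hz).le
    exact mul_le_of_le_one_right (norm_nonneg _) (pow_le_one₀ (norm_nonneg _) this)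
  set H : ℂ → ℂ := fun z => ∑' n : ℕ, d n * z ^ (n + 1) with hH
  have hHs : ∀ z ∈ ball (0 : ℂ) 1, HasSum (fun n : ℕ => d n * z ^ (n + 1)) (H z) :=
    fun z hz => (hdz z hz).hasSum
  -- the sum
  have hGs : ∀ z ∈ ball (0 : ℂ) 1, HasSum (fun n : ℕ =>
      (fun n => (r : ℂ) ^ (n - 1) * lam n + eta n) (n + 1) * tc f (n + 1) * z ^ (n + 1))
      (gr z + H z) := by
    intro z hz
    refine ((hgrs z hz).add (hHs z hz)).congr_fun fun n => ?_
    simp only [Nat.add_sub_cancel, hb, hd]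
    ring
  refine ⟨fun z hz => (hGs z hz).summable, ?_⟩
  set G : ℂ → ℂ := fun z => ∑' n : ℕ,
    (fun n => (r : ℂ) ^ (n - 1) * lam n + eta n) (n + 1) * tc f (n + 1) * z ^ (n + 1) with hGdef
  have hGe : ∀ z ∈ ball (0 : ℂ) 1, G z = gr z + H z := fun z hz => (hGs z hz).tsum_eq
  set c : ℕ → ℂ := fun n => Nat.casesOn n 0
    (fun n => (fun n => (r : ℂ) ^ (n - 1) * lam n + eta n) (n + 1) * tc f (n + 1)) with hc
  have hcs : ∀ z ∈ ball (0 : ℂ) 1, HasSum (fun n : ℕ => c n * z ^ n) (G z) := by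
    intro z hz
    rw [hGe z hz]
    have := (hasSum_nat_add_iff (f := fun n : ℕ => c n * z ^ n) 1).1 (hGs z hz)
    simpa [hc] using this
  have hgd := (fps_of_hasSum hcs).differentiableOn
  rw [← ENNReal.ofReal_one, Metric.eball_ofReal] at hgd
  have hgt := tc_of_hasSum hcs
  refine ⟨hgd, ?_, ?_, ?_⟩
  · intro z hz w hw hzw
    by_contra hne
    have hz1 := mem_ball_zero_iff.1 hz
    have hw1 := mem_ball_zero_iff.1 hw
    set ρ : ℝ := max ‖z‖ ‖w‖ with hρ
    have hρ1 : ρ < 1 := max_lt hz1 hw1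
    have hρ0 : 0 ≤ ρ := (norm_nonneg z).trans (le_max_left _ _)
    have hdiff : HasSum (fun n : ℕ => d n * (z ^ (n + 1) - w ^ (n + 1))) (H z - H w) := by
      have := (hHs z hz).sub (hHs w hw)
      refine this.congr_fun fun n => ?_
      ring
    have hbd : ∀ n : ℕ, ‖d n * (z ^ (n + 1) - w ^ (n + 1))‖ ≤
        (ρ * ‖z - w‖) * (((n : ℝ) + 1) * ‖d n‖) := by
      intro n
      rcases Nat.eq_zero_or_pos n with rfl | hn
      · simp [hd0]
      rw [norm_mul]
      have h6 := k9_pow_sub z w ρ (le_max_left _ _) (le_max_right _ _) n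
      have h7 : ρ ^ n ≤ ρ := pow_le_of_le_one hρ0 hρ1.le (by omega)
      have h8 : ((n : ℝ) + 1) * ρ ^ n * ‖z - w‖ ≤ ((n : ℝ) + 1) * ρ * ‖z - w‖ := by
        have : ((n : ℝ) + 1) * ρ ^ n ≤ ((n : ℝ) + 1) * ρ :=
          mul_le_mul_of_nonneg_left h7 (by positivity)
        exact mul_le_mul_of_nonneg_right this (norm_nonneg _)
      refine (mul_le_mul_of_nonneg_left (h6.trans h8) (norm_nonneg _)).trans (le_of_eq ?_)
      ring
    have hn1 : ‖H z - H w‖ ≤ (ρ * ‖z - w‖) * ∑' n : ℕ, (((n : ℝ) + 1) * ‖d n‖) := by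
      rw [← hdiff.tsum_eq, ← tsum_mul_left]
      exact tsum_of_norm_bounded ((hsd.mul_left _).hasSum) hbd
    have hpos : 0 < ‖z - w‖ := norm_pos_iff.2 (sub_ne_zero.2 hne)
    have hm : 0 < (1 - r) / (1 + r) ^ 3 := div_pos (by linarith) (by positivity)
    have h9 : (ρ * ‖z - w‖) * ∑' n : ℕ, (((n : ℝ) + 1) * ‖d n‖) ≤
        (ρ * ‖z - w‖) * ((1 - r) / (1 + r) ^ 3) :=
      mul_le_mul_of_nonneg_left hT (by positivity)
    have h10 : (ρ * ‖z - w‖) * ((1 - r) / (1 + r) ^ 3) < (1 - r) / (1 + r) ^ 3 * ‖z - w‖ := by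
      have h11 : ρ * ‖z - w‖ < 1 * ‖z - w‖ := mul_lt_mul_of_pos_right hρ1 hpos
      nlinarith
    have h12 := hgrG z hz w hw
    have h13 : gr z - gr w = -(H z - H w) := by
      have h14 : G z = G w := hzw
      rw [hGe z hz, hGe w hw] at h14
      linear_combination h14
    rw [h13, norm_neg] at h12
    linarith
  · change ∑' n : ℕ, _ * (0 : ℂ) ^ (n + 1) = 0
    simp
  · have := hgt 1
    rw [tc_one] at this
    rw [this]
    simpa [hc, hb, he1] using hb0

/-- Rotations are multipliers. -/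
theorem lit_rot {x : ℂ} (hx : ‖x‖ = 1) : Lit Sc (fun n => x ^ (n - 1)) := by
  have hx0 : x ≠ 0 := by
    intro h
    rw [h, norm_zero] at hx
    exact zero_ne_one hx
  rintro f ⟨hd, hi, h0, h1⟩
  have hmaps : ∀ z ∈ ball (0 : ℂ) 1, x * z ∈ ball (0 : ℂ) 1 := by
    intro z hz
    rw [mem_ball_zero_iff, norm_mul, hx, one_mul]
    exact mem_ball_zero_iff.1 hz
  have hs : ∀ z ∈ ball (0 : ℂ) 1, HasSum (fun n : ℕ => (fun n => x ^ (n - 1)) (n + 1) *
      tc f (n + 1) * z ^ (n + 1)) (f (x * z) / x) := by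
    intro z hz
    refine ((hasSum_tc_succ hd h0 (hmaps z hz)).div_const x).congr_fun fun n => ?_
    simp only [Nat.add_sub_cancel]
    rw [mul_pow, pow_succ, pow_succ]
    field_simp
  refine ⟨fun z hz => (hs z hz).summable, ?_⟩
  have he : EqOn (fun z => ∑' n : ℕ, (fun n => x ^ (n - 1)) (n + 1) *
      tc f (n + 1) * z ^ (n + 1)) (fun z => f (x * z) / x) (ball 0 1) :=
    fun z hz => (hs z hz).tsum_eq
  have hder : ∀ z ∈ ball (0 : ℂ) 1, HasDerivAt (fun z => f (x * z) / x) (deriv f (x * z)) z := by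
    intro z hz
    have h2 := (hd.differentiableAt (isOpen_ball.mem_nhds (hmaps z hz))).hasDerivAt
    have h3 : HasDerivAt (fun z : ℂ => x * z) x z := by
      simpa using (hasDerivAt_id z).const_mul x
    refine ((HasDerivAt.comp z h2 h3).div_const x).congr_deriv ?_
    field_simp
  have hmem : (0 : ℂ) ∈ ball (0 : ℂ) 1 := mem_ball_self one_pos
  refine ⟨?_, ?_, ?_, ?_⟩
  · exact DifferentiableOn.congr
      (fun z hz => (hder z hz).differentiableAt.differentiableWithinAt) he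
  · intro a ha b hb hab
    rw [he ha, he hb] at hab
    have h2 : f (x * a) / x = f (x * b) / x := hab
    rw [div_left_inj' hx0] at h2
    exact mul_left_cancel₀ hx0 (hi (hmaps a ha) (hmaps b hb) h2)
  · have := he hmem
    rw [this]
    simp [h0]
  · have : (fun z => ∑' n : ℕ, (fun n => x ^ (n - 1)) (n + 1) *
      tc f (n + 1) * z ^ (n + 1)) =ᶠ[𝓝 0] (fun z => f (x * z) / x) := by
      filter_upwards [isOpen_ball.mem_nhds hmem] with z hz
      exact he hz
    rw [this.deriv_eq, (hder 0 hmem).deriv, mul_zero, h1]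

/-- `t * exp (-t / 2) ≤ 1 - exp (-t)`. -/
theorem nb_sinh {t : ℝ} (ht : 0 ≤ t) : t * Real.exp (-(t / 2)) ≤ 1 - Real.exp (-t) := by
  have h1 : t / 2 ≤ Real.sinh (t / 2) := Real.self_le_sinh_iff.2 (by linarith)
  rw [Real.sinh_eq] at h1
  have h2 : Real.exp (t / 2) * Real.exp (-(t / 2)) = 1 := by
    rw [← Real.exp_add]; simp
  have h3 : Real.exp (-t) = Real.exp (-(t / 2)) * Real.exp (-(t / 2)) := by
    rw [← Real.exp_add]; ring_nf
  rw [h3]
  nlinarith [Real.exp_pos (-(t / 2))]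

/-- One-parameter semigroups of multipliers. -/
theorem nbhdB (hG : Gol) {C : ℝ} (hC : CB C) {a : ℂ} (ha : 0 ≤ a.re) {nu : ℕ → ℂ}
    (h1 : nu 1 = 0) (hs : Summable (fun n : ℕ => (n : ℝ) ^ 2 * ‖nu n‖))
    (hle : 8 * C * ∑' n : ℕ, (n : ℝ) ^ 2 * ‖nu n‖ ≤ a.re) {t : ℝ} (ht : 0 ≤ t) :
    Lit Sc (fun n => exp (-(t * (a * ((n : ℂ) - 1) + nu n)))) := by
  have hC1 := hC.one_le
  set S : ℝ := ∑' n : ℕ, (n : ℝ) ^ 2 * ‖nu n‖ with hS
  have hS0 : 0 ≤ S := tsum_nonneg fun n => by positivity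
  have hS8 : 8 * S ≤ a.re := by nlinarith
  have hnun : ∀ n : ℕ, 1 ≤ n → ‖nu n‖ ≤ a.re / 8 := by
    intro n hn
    have h2 : (n : ℝ) ^ 2 * ‖nu n‖ ≤ S := hs.le_tsum n fun m _ => by positivity
    have h3 : (1 : ℝ) ≤ (n : ℝ) ^ 2 := by
      have : (1 : ℝ) ≤ n := by exact_mod_cast hn
      nlinarith
    nlinarith [norm_nonneg (nu n)]
  set T : ℝ := t * a.re with hT
  have hT0 : 0 ≤ T := mul_nonneg ht ha
  set x : ℂ := exp (-((t * a.im : ℝ) : ℂ) * I) with hx
  have hx1 : ‖x‖ = 1 := by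
    rw [hx, ← ofReal_neg, norm_exp_ofReal_mul_I]
  -- the values
  have hval : ∀ n : ℕ, 1 ≤ n → exp (-(t * (a * ((n : ℂ) - 1) + nu n))) =
      (Real.exp (-T) : ℂ) ^ (n - 1) * x ^ (n - 1) * exp (-(t * nu n)) := by
    intro n hn
    obtain ⟨m, rfl⟩ : ∃ m, n = m + 1 := ⟨n - 1, by omega⟩
    rw [Nat.add_sub_cancel, hx, ofReal_exp, ← exp_nat_mul, ← exp_nat_mul, ← exp_add, ← exp_add]
    congr 1
    have ha' : a = (a.re : ℂ) + a.im * I := (re_add_im a).symm
    rw [hT]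
    push_cast
    linear_combination (-(t : ℂ) * m) * ha'
  rcases eq_or_lt_of_le hT0 with hTz | hTp
  · -- the rotation case: either `t = 0` or `a.re = 0`
    have hz : ∀ n : ℕ, 1 ≤ n → (t : ℂ) * nu n = 0 := by
      intro n hn
      rcases mul_eq_zero.1 hTz.symm with h | h
      · simp [h]
      · have := hnun n hn
        rw [h] at this
        have h0 : nu n = 0 := norm_le_zero_iff.1 (by simpa using this)
        simp [h0]
    have hcongr : ∀ n : ℕ, 1 ≤ n → exp (-(t * (a * ((n : ℂ) - 1) + nu n))) = x ^ (n - 1) := by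
      intro n hn
      rw [hval n hn, hz n hn, ← hTz]
      simp
    intro f hf
    have := lit_rot hx1 f hf
    have he : ∀ n : ℕ, exp (-(t * (a * (((n + 1 : ℕ) : ℂ) - 1) + nu (n + 1)))) =
      x ^ (n + 1 - 1) := fun n => hcongr (n + 1) (by omega)
    simp only [he]
    exact this
  · set r : ℝ := Real.exp (-T) with hr
    have hr0 : 0 ≤ r := (Real.exp_pos _).le
    have hr1 : r < 1 := by
      rw [hr]
      exact Real.exp_lt_one_iff.2 (by linarith)
    set eta : ℕ → ℂ := fun n => if n ≤ 1 then 0 else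
      (r : ℂ) ^ (n - 1) * x ^ (n - 1) * (exp (-(t * nu n)) - 1) with heta
    have hetan : ∀ n : ℕ, ‖eta n‖ ≤ (t * Real.exp (-(T / 2))) * ‖nu n‖ := by
      intro n
      rw [heta]
      simp only
      split_ifs with hn
      · rw [norm_zero]; positivity
      · push Not at hn
        rw [norm_mul, norm_mul, norm_pow, norm_pow, hx1, one_pow, mul_one, norm_real,
          Real.norm_of_nonneg hr0]
        have h3 : ‖exp (-(t * nu n)) - 1‖ ≤ (t * ‖nu n‖) * Real.exp (t * ‖nu n‖) := by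
          have h4 := Complex.norm_exp_sub_sum_le_norm_mul_exp (-((t : ℂ) * nu n)) 1
          simp only [Finset.sum_range_one, pow_zero, Nat.factorial_zero, Nat.cast_one, div_one,
            pow_one, norm_neg, norm_mul, norm_real, Real.norm_of_nonneg ht] at h4
          exact h4
        have h5 : r ^ (n - 1) * Real.exp (t * ‖nu n‖) ≤ Real.exp (-(T / 2)) := by
          have h6 : r ^ (n - 1) ≤ r := pow_le_of_le_one hr0 hr1.le (by omega)
          have h7 : t * ‖nu n‖ ≤ T / 2 := by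
            have := mul_le_mul_of_nonneg_left (hnun n (by omega)) ht
            rw [hT]
            nlinarith
          calc r ^ (n - 1) * Real.exp (t * ‖nu n‖) ≤ r * Real.exp (T / 2) :=
                mul_le_mul h6 (Real.exp_le_exp.2 h7) (Real.exp_pos _).le hr0
            _ = Real.exp (-(T / 2)) := by
                rw [hr, ← Real.exp_add]; ring_nf
        calc r ^ (n - 1) * ‖exp (-(t * nu n)) - 1‖
            ≤ r ^ (n - 1) * ((t * ‖nu n‖) * Real.exp (t * ‖nu n‖)) :=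
              mul_le_mul_of_nonneg_left h3 (pow_nonneg hr0 _)
          _ = (r ^ (n - 1) * Real.exp (t * ‖nu n‖)) * (t * ‖nu n‖) := by ring
          _ ≤ Real.exp (-(T / 2)) * (t * ‖nu n‖) :=
              mul_le_mul_of_nonneg_right h5 (by positivity)
          _ = _ := by ring
    have hbd : ∀ n : ℕ, (n : ℝ) ^ 2 * ‖eta n‖ ≤
        (t * Real.exp (-(T / 2))) * ((n : ℝ) ^ 2 * ‖nu n‖) := by
      intro n
      calc (n : ℝ) ^ 2 * ‖eta n‖ ≤ (n : ℝ) ^ 2 * ((t * Real.exp (-(T / 2))) * ‖nu n‖) :=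
            mul_le_mul_of_nonneg_left (hetan n) (by positivity)
        _ = _ := by ring
    have hse : Summable (fun n : ℕ => (n : ℝ) ^ 2 * ‖eta n‖) :=
      Summable.of_nonneg_of_le (fun n => by positivity) hbd (hs.mul_left _)
    have hte : ∑' n : ℕ, (n : ℝ) ^ 2 * ‖eta n‖ ≤ (t * Real.exp (-(T / 2))) * S := by
      refine (hse.tsum_le_tsum hbd (hs.mul_left _)).trans (le_of_eq ?_)
      rw [tsum_mul_left]
    have hmain : C * ∑' n : ℕ, (n : ℝ) ^ 2 * ‖eta n‖ ≤ (1 - r) / (1 + r) ^ 3 := by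
      have h8 : C * ∑' n : ℕ, (n : ℝ) ^ 2 * ‖eta n‖ ≤ (T * Real.exp (-(T / 2))) / 8 := by
        have h9 : C * ∑' n : ℕ, (n : ℝ) ^ 2 * ‖eta n‖ ≤ C * ((t * Real.exp (-(T / 2))) * S) :=
          mul_le_mul_of_nonneg_left hte (by linarith)
        have h10 : 8 * (C * ((t * Real.exp (-(T / 2))) * S)) ≤ T * Real.exp (-(T / 2)) := by
          have : 8 * (C * ((t * Real.exp (-(T / 2))) * S)) =
              (t * Real.exp (-(T / 2))) * (8 * C * S) := by ring
          rw [this, hT]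
          calc (t * Real.exp (-(t * a.re / 2))) * (8 * C * S) ≤
              (t * Real.exp (-(t * a.re / 2))) * a.re :=
                mul_le_mul_of_nonneg_left hle (by positivity)
            _ = _ := by ring
        linarith
      have h11 := nb_sinh hT0
      have h12 : (1 - r) / 8 ≤ (1 - r) / (1 + r) ^ 3 := by
        apply div_le_div_of_nonneg_left (by linarith) (by positivity)
        have : (1 + r) ≤ 2 := by linarith
        calc (1 + r) ^ 3 ≤ 2 ^ 3 := pow_le_pow_left₀ (by linarith) this 3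
          _ = 8 := by norm_num
      rw [← hr] at h11
      linarith
    have hA := nbhdA hG hC (lit_rot hx1) hr0 hr1 (by simp [heta]) hse hmain
    intro f hf
    have := hA f hf
    have he : ∀ n : ℕ, exp (-(t * (a * (((n + 1 : ℕ) : ℂ) - 1) + nu (n + 1)))) =
        (fun n => (r : ℂ) ^ (n - 1) * x ^ (n - 1) + eta n) (n + 1) := by
      intro n
      rw [hval (n + 1) (by omega)]
      rcases Nat.eq_zero_or_pos n with rfl | hn
      · simp [heta, h1]
      · have : ¬ (n + 1 ≤ 1) := by omega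
        simp only [heta, this, if_false]
        ring
    simp only [he]
    exact this

end Pool.Agent.MultS
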