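import Pool.Agent.Work.MP_b17785_an.Defs

/-!
# Coefficient multipliers of the class S: the statements of the modules
-/

set_option autoImplicit false

open Complex Metric Set Filter Topology MeasureTheory Finset

namespace Pool.Agent.MultS

/-! ### A: members of `S` -/

/-- [A0] If `Y'` takes its values on the strip `|Im ζ| < π/2` in a closed convex subset of the
disk `|w + 1| ≤ 1` not containing `0`, then `exp ∘ Y` is injective on the strip. -/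
def Strip : Prop :=
  ∀ (Y : ℂ → ℂ) (K : Set ℂ), Convex ℝ K → IsClosed K → K ⊆ closedBall (-1) 1 → (0 : ℂ) ∉ K →
    (∀ ζ : ℂ, |ζ.im| < Real.pi / 2 → ∃ d ∈ K, HasDerivAt Y d ζ) →
    ∀ ζ₁ ζ₂ : ℂ, |ζ₁.im| < Real.pi / 2 → |ζ₂.im| < Real.pi / 2 →
      exp (Y ζ₁) = exp (Y ζ₂) → ζ₁ = ζ₂

/-- [A1] An injective holomorphic function has no critical points. -/
def DerNe : Prop :=
  ∀ (U : Set ℂ) (f : ℂ → ℂ), IsOpen U → DifferentiableOn ℂ f U → InjOn f U →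
    ∀ z ∈ U, deriv f z ≠ 0

/-- [A2] The Taylor coefficients of `(1 - z) ^ q`. -/
def PowCoef : Prop :=
  ∀ (q : ℂ) (n : ℕ), 1 ≤ n → tc (fun z : ℂ => (1 - z) ^ q) n = -q * (cf q (n - 1) / n)

/-- [A3] The test functions `a z / (1-z)^2 + (1-a) z / (1-z)`. -/
def TestA : Prop :=
  ∀ a : ℂ, ‖a - 1 / 2‖ ≤ 1 / 2 →
    ∃ f : ℂ → ℂ, Sc f ∧ ∀ n : ℕ, 1 ≤ n → tc f n = 1 + a * ((n : ℂ) - 1)

/-- [A4] The test functions `(1 - (1-z)^q)/q`. -/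
def TestQ : Prop :=
  ∀ q : ℂ, ‖q + 1‖ ≤ 1 → q ≠ 0 →
    ∃ f : ℂ → ℂ, Sc f ∧ ∀ n : ℕ, 1 ≤ n → tc f n = cf q (n - 1) / n

/-- [A5] The test functions `u^(-s) (u^b + σ)^6`, `u = 1 - z`, `b = (s-p)/6`. -/
def TestN : Prop :=
  ∀ (p s : ℝ) (σ : ℂ), 0 < p → p < s → s ≤ 2 → σ ≠ 0 → |arg σ| ≤ Real.pi / 3 →
    ∃ (f : ℂ → ℂ) (d : ℂ), Sc f ∧ d ≠ 0 ∧ ∀ n : ℕ, 1 ≤ n →
      tc f n = d * ∑ j ∈ range 7, (Nat.choose 6 j : ℂ) * σ ^ (6 - j) *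
        (((s - j * ((s - p) / 6) : ℝ) : ℂ) * (cf ((j * ((s - p) / 6) - s : ℝ) : ℂ) (n - 1) / n))

/-! ### B: consequences for a multiplier -/

/-- [B1] Power series of `g'` and of `z g''`, with absolute convergence. -/
def Ser : Prop :=
  ∀ g : ℂ → ℂ, DifferentiableOn ℂ g (ball 0 1) → ∀ z ∈ ball (0 : ℂ) 1,
    Summable (fun k : ℕ => ‖tc g k * z ^ k‖) ∧
    HasSum (fun k : ℕ => ((k : ℂ) + 1) * tc g (k + 1) * z ^ k) (deriv g z) ∧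
    HasSum (fun k : ℕ => (k : ℂ) * (((k : ℂ) + 1) * tc g (k + 1) * z ^ k))
      (z * deriv (deriv g) z)

/-- [B2] Absolute convergence of the series `J(q,z)`. -/
def SerJ : Prop :=
  ∀ (lam : ℕ → ℂ) (h : ℂ → ℂ), Gen lam h → ∀ (q : ℂ), ∀ z ∈ ball (0 : ℂ) 1,
    Summable (fun k : ℕ => ‖lam (k + 1) * cf q k * z ^ k‖)

/-- [B3] `J(-1,z) = h'(z)` and `z J(0,z) = h(z)`. -/
def HDer : Prop :=
  ∀ (lam : ℕ → ℂ) (h : ℂ → ℂ), Gen lam h → ∀ z ∈ ball (0 : ℂ) 1,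
    JJ lam (-1) z = deriv h z ∧ z * JJ lam 0 z = h z

/-- [B4] A multiplier has a generating function. -/
def GenEx : Prop := ∀ lam : ℕ → ℂ, IsMult lam → ∃ h : ℂ → ℂ, Gen lam h

/-- [B5] Convexity of the generating function of a multiplier. -/
def Conv : Prop :=
  ∀ (lam : ℕ → ℂ) (h : ℂ → ℂ), IsMult lam → Gen lam h →
    ∀ z ∈ ball (0 : ℂ) 1, 0 < (PP h z).re

/-- [B6] The function `h * f_q` belongs to `S` and has the derivative `J(q, ·)`. -/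
def MemQ : Prop :=
  ∀ lam : ℕ → ℂ, IsMult lam → ∀ q : ℂ, ‖q + 1‖ ≤ 1 → q ≠ 0 →
    ∃ g : ℂ → ℂ, Sc g ∧ ∀ z ∈ ball (0 : ℂ) 1, deriv g z = JJ lam q z

/-- [B7] The polynomial `NN` has no zeros in the sector. -/
def NonN : Prop :=
  ∀ lam : ℕ → ℂ, IsMult lam → ∀ (p s : ℝ) (σ : ℂ), 0 < p → p < s → s ≤ 2 → σ ≠ 0 →
    |arg σ| ≤ Real.pi / 3 → ∀ z ∈ ball (0 : ℂ) 1, NN lam p s σ z ≠ 0

/-- [B8] Rotations. -/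
def Rot : Prop :=
  ∀ (lam : ℕ → ℂ) (h : ℂ → ℂ) (x : ℂ), IsMult lam → Gen lam h → ‖x‖ = 1 →
    IsMult (fun n => x ^ (n - 1) * lam n) ∧
    Gen (fun n => x ^ (n - 1) * lam n) (fun z => h (x * z) / x) ∧
    ∀ z ∈ ball (0 : ℂ) 1, PP (fun z => h (x * z) / x) z = PP h (x * z)

/-! ### C: functions with non-negative real part -/

/-- The class of holomorphic functions with non-negative real part in the disk. -/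
def Car (P : ℂ → ℂ) : Prop :=
  DifferentiableOn ℂ P (ball 0 1) ∧ ∀ z ∈ ball (0 : ℂ) 1, 0 ≤ (P z).re

/-- [C0] `PP h` is holomorphic and has the value `1` at `0`. -/
def PPan : Prop :=
  ∀ h : ℂ → ℂ, Sc h → DifferentiableOn ℂ (PP h) (ball 0 1) ∧ PP h 0 = 1

/-- [C1] Harnack and Schwarz-Pick inequalities. -/
def Har : Prop :=
  ∀ P : ℂ → ℂ, Car P → ∀ z ∈ ball (0 : ℂ) 1, ∀ w ∈ ball (0 : ℂ) 1, ∀ ρ : ℝ,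
    ρ = ‖z - w‖ / ‖1 - (starRingEnd ℂ) w * z‖ →
      ρ < 1 ∧ (1 - ρ) * (P w).re ≤ (1 + ρ) * (P z).re ∧
      (1 - ρ) * ‖P z - P w‖ ≤ 2 * ρ * (P w).re ∧
      ‖deriv P w‖ * (1 - ‖w‖ ^ 2) ≤ 2 * (P w).re

/-- The Julia inequality at the boundary point `1`. -/
def JulIneq (P : ℂ → ℂ) (α : ℝ) : Prop :=
  ∀ z ∈ ball (0 : ℂ) 1, α * (1 - ‖z‖ ^ 2) / ‖1 - z‖ ^ 2 ≤ (P z).re

/-- The radial limit at the boundary point `1`. -/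
def JulLim (P : ℂ → ℂ) (α : ℝ) : Prop :=
  Tendsto (fun r : ℝ => (1 - r) * (P (r : ℂ)).re) (𝓝[<] (1 : ℝ)) (𝓝 (2 * α))

/-- [C2] Julia. -/
def Jul : Prop := ∀ P : ℂ → ℂ, Car P → ∃ α : ℝ, 0 ≤ α ∧ JulIneq P α ∧ JulLim P α

/-- [C3] Julia-Wolff-Caratheodory. -/
def JLim : Prop :=
  ∀ (P : ℂ → ℂ) (α : ℝ), Car P → JulIneq P α → JulLim P α → ∀ u : ℂ, 0 < u.re →
    Tendsto (fun ε : ℝ => (ε : ℂ) * P (exp (-((ε : ℂ) * u)))) (𝓝[>] (0 : ℝ))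
      (𝓝 (2 * (α : ℂ) / u))

/-- [C4] The extremal case. -/
def JOne : Prop :=
  ∀ P : ℂ → ℂ, Car P → P 0 = 1 → JulIneq P 1 →
    ∀ z ∈ ball (0 : ℂ) 1, P z = (1 + z) / (1 - z)

/-- [C5] Compactness. -/
def Unif : Prop :=
  ∀ P : ℂ → ℂ, Car P →
    (∀ x : ℂ, ‖x‖ = 1 → Tendsto (fun r : ℝ => (1 - r) * (P ((r : ℂ) * x)).re)
      (𝓝[<] (1 : ℝ)) (𝓝 0)) →
    ∀ η : ℝ, 0 < η → ∃ r0 : ℝ, 0 < r0 ∧ r0 < 1 ∧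
      ∀ z ∈ ball (0 : ℂ) 1, r0 ≤ ‖z‖ → (P z).re ≤ η / (1 - ‖z‖)

/-! ### D: blow-up at a boundary point -/

/-- [D1] Integral representation. -/
def Rep : Prop :=
  ∀ (lam : ℕ → ℂ) (h : ℂ → ℂ), Gen lam h → ∀ q : ℂ, -1 < q.re → q.re < 1 →
    ∀ z ∈ ball (0 : ℂ) 1, JJ lam q z = (Gamma (1 - q) * Gamma (1 + q))⁻¹ *
      ∫ t in Ioo (0 : ℝ) 1, deriv h ((t : ℂ) * z) * ((t : ℂ) ^ (-q) * ((1 - t : ℝ) : ℂ) ^ q)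

/-- [D2] The same with `t = exp (-x)`. -/
def RepX : Prop :=
  ∀ (lam : ℕ → ℂ) (h : ℂ → ℂ), Gen lam h → ∀ q : ℂ, -1 < q.re → q.re < 1 →
    ∀ z ∈ ball (0 : ℂ) 1, z * JJ lam q z = (Gamma (1 - q) * Gamma (1 + q))⁻¹ *
      ∫ x in Ioi (0 : ℝ), FF h (((Real.exp (-x) : ℝ) : ℂ) * z) * ((Real.exp x - 1 : ℝ) : ℂ) ^ q

/-- [D3] A beta type integral. -/
def Beta : Prop :=
  ∀ (α : ℝ) (q u : ℂ), -1 < q.re → q.re < 2 * α - 1 → 0 < u.re →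
    IntegrableOn (fun τ : ℝ => (u + (τ : ℂ)) ^ (-(2 * (α : ℂ))) * (τ : ℂ) ^ q) (Ioi 0) ∧
    ∫ τ in Ioi (0 : ℝ), (u + (τ : ℂ)) ^ (-(2 * (α : ℂ))) * (τ : ℂ) ^ q =
      Gamma (1 + q) * Gamma (2 * α - 1 - q) / Gamma (2 * α) * u ^ (q + 1 - 2 * α)

/-- Domination of `F` along the segments to `0`. -/
def DomP (h : ℂ → ℂ) (α : ℝ) : Prop :=
  ∃ C : ℝ, ∀ z ∈ ball (0 : ℂ) 1, ∀ x : ℝ, 0 ≤ x →
    ‖FF h (((Real.exp (-x) : ℝ) : ℂ) * z)‖ ≤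
      C * ‖FF h z‖ * (1 + x / ‖1 - z‖) ^ (-(2 * α))

/-- [D4] Domination. -/
def Dom : Prop :=
  ∀ (h : ℂ → ℂ) (α : ℝ), Sc h → 0 ≤ α → (∀ z ∈ ball (0 : ℂ) 1, 0 < (PP h z).re) →
    JulIneq (PP h) α → DomP h α

/-- The blow-up of `F` at `1` is `u ^ (-2α)`, with local bounds. -/
def PsiP (h : ℂ → ℂ) (α : ℝ) : Prop :=
  (∀ u : ℂ, 0 < u.re → Tendsto (fun ε : ℝ => FF h (exp (-((ε : ℂ) * u))) /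
      FF h (exp (-(ε : ℂ)))) (𝓝[>] (0 : ℝ)) (𝓝 (u ^ (-(2 * (α : ℂ)))))) ∧
  ∀ η R : ℝ, 0 < η → ∃ C : ℝ, ∀ ε : ℝ, 0 < ε → ε ≤ 1 → ∀ u : ℂ, η ≤ u.re → ‖u‖ ≤ R →
    ‖FF h (exp (-((ε : ℂ) * u)))‖ ≤ C * ‖FF h (exp (-(ε : ℂ)))‖

/-- [D5] The blow-up of `F`. -/
def Psi : Prop :=
  ∀ (h : ℂ → ℂ) (α : ℝ), Sc h → (∀ z ∈ ball (0 : ℂ) 1, 0 < (PP h z).re) →
    (∀ u : ℂ, 0 < u.re → Tendsto (fun ε : ℝ => (ε : ℂ) * PP h (exp (-((ε : ℂ) * u))))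
      (𝓝[>] (0 : ℝ)) (𝓝 (2 * (α : ℂ) / u))) → PsiP h α

/-- The blow-up of `G'`, with local bounds. -/
def BlowP (D : ℂ → ℂ) (N : ℝ → ℂ) (K Q : ℂ) : Prop :=
  (∀ u : ℂ, 0 < u.re → Tendsto (fun ε : ℝ => exp (-((ε : ℂ) * u)) * D (exp (-((ε : ℂ) * u))) /
      N ε) (𝓝[>] (0 : ℝ)) (𝓝 (K * u ^ (Q - 1)))) ∧
  ∀ η R : ℝ, 0 < η → ∃ C : ℝ, ∀ ε : ℝ, 0 < ε → ε ≤ 1 → ∀ u : ℂ, η ≤ u.re → ‖u‖ ≤ R →
    ‖exp (-((ε : ℂ) * u)) * D (exp (-((ε : ℂ) * u))) / N ε‖ ≤ C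

/-- [D6] The blow-up of `J(q, ·)`. -/
def DLim : Prop :=
  ∀ (lam : ℕ → ℂ) (h : ℂ → ℂ) (α : ℝ) (q : ℂ), Gen lam h → 0 < α → -1 < q.re → q.re ≤ 0 →
    q.re < 2 * α - 1 → DomP h α → PsiP h α →
    ∃ K : ℂ, K ≠ 0 ∧ BlowP (JJ lam q) (fun ε : ℝ => (ε : ℂ) ^ (1 + q) * FF h (exp (-(ε : ℂ)))) K
      (q + 2 - 2 * α)

/-- [D7] Hurwitz: the blow-up limit of an injective function is injective. -/
def DBlow : Prop :=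
  ∀ (g : ℂ → ℂ) (N : ℝ → ℂ) (K Q : ℂ), Sc g → K ≠ 0 → Q ≠ 0 → (∀ ε : ℝ, 0 < ε → N ε ≠ 0) →
    BlowP (deriv g) N K Q → InjOn (fun u : ℂ => u ^ Q) {u : ℂ | 0 < u.re}

/-- [D8] The exponent for which the limit is not injective. -/
def NonInj : Prop :=
  ∀ α : ℝ, 0 < α → α < 1 → ∃ q : ℂ, ‖q + 1‖ ≤ 1 ∧ q ≠ 0 ∧ -1 < q.re ∧ q.re ≤ 0 ∧
    q.re < 2 * α - 1 ∧ q + 2 - 2 * α ≠ 0 ∧
    ¬ InjOn (fun u : ℂ => u ^ (q + 2 - 2 * (α : ℂ))) {u : ℂ | 0 < u.re}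

/-! ### E: growth -/

/-- [E1] If there are no atoms, `h'` grows slower than any power. -/
def Grow : Prop :=
  ∀ h : ℂ → ℂ, Sc h →
    (∀ η : ℝ, 0 < η → ∃ r0 : ℝ, 0 < r0 ∧ r0 < 1 ∧
      ∀ z ∈ ball (0 : ℂ) 1, r0 ≤ ‖z‖ → (PP h z).re ≤ η / (1 - ‖z‖)) →
    ∀ β : ℝ, 0 < β → ∃ C : ℝ, ∀ z ∈ ball (0 : ℂ) 1, ‖deriv h z‖ ≤ C * (1 - ‖z‖) ^ (-β)

/-- [E2] Recovering the coefficients in the extremal case. -/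
def RotOne : Prop :=
  ∀ (lam : ℕ → ℂ) (h : ℂ → ℂ), Gen lam h →
    (∀ z ∈ ball (0 : ℂ) 1, PP h z = (1 + z) / (1 - z)) → ∀ n : ℕ, 1 ≤ n → lam n = 1

/-! ### F: the start of the climb -/

/-- [F1] A lower bound for `J(-p, ·)`. -/
def Low : Prop :=
  ∀ (lam : ℕ → ℂ) (h : ℂ → ℂ), Gen lam h →
    (∃ C : ℝ, ∀ z ∈ ball (0 : ℂ) 1, ‖deriv h z‖ ≤ C * (1 - ‖z‖) ^ (-(1 / 8 : ℝ))) →
    ∃ p c : ℝ, 0 < p ∧ p ≤ 1 / 8 ∧ 0 < c ∧ ∀ z ∈ ball (0 : ℂ) 1, c ≤ ‖JJ lam ((-p : ℝ) : ℂ) z‖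

/-- [F2] Upper bounds for `J(-s, ·)`, `s ≤ 3/4`. -/
def Start : Prop :=
  ∀ (lam : ℕ → ℂ) (h : ℂ → ℂ), Gen lam h →
    (∃ C : ℝ, ∀ z ∈ ball (0 : ℂ) 1, ‖deriv h z‖ ≤ C * (1 - ‖z‖) ^ (-(1 / 8 : ℝ))) →
    ∀ s : ℝ, 0 ≤ s → s ≤ 3 / 4 → ∃ C : ℝ, ∀ z ∈ ball (0 : ℂ) 1, ‖JJ lam ((-s : ℝ) : ℂ) z‖ ≤ C

/-! ### W: the climb -/

/-- [W1] A polynomial of degree `6` with large leading coefficient has a zero in the sector. -/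
def Poly : Prop :=
  ∀ c C : ℝ, 0 < c → ∃ A0 : ℝ, ∀ a : ℕ → ℂ, c ≤ ‖a 0‖ → (∀ i : ℕ, i ≤ 5 → ‖a i‖ ≤ C) →
    (∀ σ : ℂ, σ ≠ 0 → |arg σ| ≤ Real.pi / 3 → ∑ i ∈ range 7, a i * σ ^ i ≠ 0) → ‖a 6‖ ≤ A0

/-- [W2] The climb. -/
def Climb : Prop :=
  ∀ (lam : ℕ → ℂ) (p c : ℝ), 0 < p → p ≤ 1 / 8 → 0 < c →
    (∀ (s : ℝ) (σ : ℂ), p < s → s ≤ 2 → σ ≠ 0 → |arg σ| ≤ Real.pi / 3 →
      ∀ z ∈ ball (0 : ℂ) 1, NN lam p s σ z ≠ 0) →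
    (∀ z ∈ ball (0 : ℂ) 1, c ≤ ‖JJ lam ((-p : ℝ) : ℂ) z‖) →
    (∀ s : ℝ, 0 ≤ s → s ≤ 3 / 4 →
      ∃ C : ℝ, ∀ z ∈ ball (0 : ℂ) 1, ‖JJ lam ((-s : ℝ) : ℂ) z‖ ≤ C) →
    ∀ s : ℝ, 0 ≤ s → s ≤ 2 →
      ∃ C : ℝ, ∀ z ∈ ball (0 : ℂ) 1, ‖JJ lam ((-s : ℝ) : ℂ) z‖ ≤ C

/-! ### G: assembly -/

/-- The literal definition of a coefficient multiplier from the class `A` to itself. -/
def Lit (A : (ℂ → ℂ) → Prop) (lam : ℕ → ℂ) : Prop :=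
  ∀ f : ℂ → ℂ, A f →
    (∀ z ∈ ball (0 : ℂ) 1, Summable (fun n : ℕ => lam (n + 1) * tc f (n + 1) * z ^ (n + 1))) ∧
    A (fun z => ∑' n : ℕ, lam (n + 1) * tc f (n + 1) * z ^ (n + 1))

/-- The class `S_0`. -/
def S0 (f : ℂ → ℂ) : Prop :=
  DifferentiableOn ℂ f (ball 0 1) ∧ InjOn f (ball 0 1) ∧ f 0 = 0

/-- [G1] The literal multipliers of `S` are multipliers in the working form. -/
def LitMult : Prop := ∀ lam : ℕ → ℂ, Lit Sc lam → IsMult lam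

/-- [G2] The multipliers of `S_0` are multiples of multipliers of `S`. -/
def LitZero : Prop :=
  ∀ lam : ℕ → ℂ, Lit S0 lam → lam 1 ≠ 0 ∧ IsMult (fun n => lam n / lam 1)

/-- [G3] From bounds for `J(-1, ·)` and `J(-2, ·)` to `∑ n^2 lam_n z^n`. -/
def Fin2 : Prop :=
  ∀ (lam : ℕ → ℂ) (h : ℂ → ℂ) (C : ℝ), Gen lam h →
    (∀ z ∈ ball (0 : ℂ) 1, ‖JJ lam (-1) z‖ ≤ C ∧ ‖JJ lam (-2) z‖ ≤ C) →
    ∀ z ∈ ball (0 : ℂ) 1, Summable (fun n : ℕ => (n : ℂ) ^ 2 * lam n * z ^ n) ∧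
      ‖∑' n : ℕ, (n : ℂ) ^ 2 * lam n * z ^ n‖ ≤ 3 * C

/-- [G4] A bounded power series has square summable coefficients. -/
def Pars : Prop :=
  ∀ (a : ℕ → ℂ) (C : ℝ), (∀ z ∈ ball (0 : ℂ) 1, Summable (fun n : ℕ => a n * z ^ n) ∧
    ‖∑' n : ℕ, a n * z ^ n‖ ≤ C) → Summable (fun n : ℕ => ‖a n‖ ^ 2)

/-- [G5] A bounded power series with non-negative coefficients has summable coefficients. -/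
def Nonneg : Prop :=
  ∀ (a : ℕ → ℝ) (C : ℝ), (∀ n, 0 ≤ a n) → (∀ z ∈ ball (0 : ℂ) 1,
    Summable (fun n : ℕ => (a n : ℂ) * z ^ n) ∧
    ‖∑' n : ℕ, (a n : ℂ) * z ^ n‖ ≤ C) → Summable a

end Pool.Agent.MultS
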